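import Mathlib

/-!
# From a bound on a vertical line to a mean square bound
-/

open Complex Filter Topology Set MeasureTheory

namespace Pool.Agent.SqFull

/-- Moving a vertical line of integration. -/
lemma vert_shift {Φ : ℂ → ℂ} {a b C : ℝ} (hab : a ≤ b)
    (hd : ∀ s : ℂ, a ≤ s.re → s.re ≤ b → DifferentiableAt ℂ Φ s)
    (hC : ∀ s : ℂ, a ≤ s.re → s.re ≤ b → ‖Φ s‖ ≤ C * (1 + s.im ^ 2)⁻¹) :
    ∫ t : ℝ, Φ (a + t * I) = ∫ t : ℝ, Φ (b + t * I) := by
  have hC0 : 0 ≤ C := by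
    have := (norm_nonneg _).trans (hC a (by simp) (by simpa using hab))
    simpa using this
  have hint : ∀ x : ℝ, a ≤ x → x ≤ b → Integrable (fun t : ℝ => Φ (x + t * I)) := by
    intro x hx1 hx2
    refine Integrable.mono' (g := fun t : ℝ => C * (1 + t ^ 2)⁻¹)
      (integrable_inv_one_add_sq.const_mul _) ?_ ?_
    · refine Continuous.aestronglyMeasurable ?_
      rw [continuous_iff_continuousAt]
      intro t
      have h1 : ContinuousAt Φ (x + t * I) := (hd _ (by simpa using hx1) (by simpa using hx2)).continuousAt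
      exact ContinuousAt.comp (f := fun t : ℝ => (x + t * I : ℂ)) h1 (by fun_prop)
    · refine Eventually.of_forall fun t => ?_
      simpa using hC (x + t * I) (by simpa using hx1) (by simpa using hx2)
  have hrect : ∀ T : ℝ, 0 < T →
      (∫ x : ℝ in a..b, Φ (x + (-T : ℝ) * I)) - (∫ x : ℝ in a..b, Φ (x + (T : ℝ) * I)) +
      I • (∫ y : ℝ in (-T)..T, Φ (b + y * I)) - I • (∫ y : ℝ in (-T)..T, Φ (a + y * I)) = 0 := by
    intro T hT
    have := Complex.integral_boundary_rect_eq_zero_of_differentiableOn Φ ⟨a, -T⟩ ⟨b, T⟩ (by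
      intro z hz
      have h1 := hz.1
      simp only [mem_preimage] at h1
      rw [uIcc_of_le hab] at h1
      exact (hd z h1.1 h1.2).differentiableWithinAt)
    simpa using this
  have hH : ∀ T : ℝ, 0 < T → ‖(∫ x : ℝ in a..b, Φ (x + (-T : ℝ) * I)) -
      (∫ x : ℝ in a..b, Φ (x + (T : ℝ) * I))‖ ≤ 2 * (C * (1 + T ^ 2)⁻¹ * (b - a)) := by
    intro T hT
    have h1 : ∀ τ : ℝ, τ ^ 2 = T ^ 2 → ‖∫ x : ℝ in a..b, Φ (x + (τ : ℝ) * I)‖ ≤
        C * (1 + T ^ 2)⁻¹ * (b - a) := by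
      intro τ hτ
      have := intervalIntegral.norm_integral_le_of_norm_le_const (a := a) (b := b)
        (f := fun x : ℝ => Φ (x + (τ : ℝ) * I)) (C := C * (1 + T ^ 2)⁻¹) (by
          intro x hx
          rw [uIoc_of_le hab] at hx
          have := hC (x + τ * I) (by simpa using hx.1.le) (by simpa using hx.2)
          simpa [hτ] using this)
      rwa [abs_of_nonneg (by linarith)] at this
    refine (norm_sub_le _ _).trans ?_
    rw [two_mul]
    exact add_le_add (h1 (-T) (by ring)) (h1 T rfl)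
  have hlim : Tendsto (fun T : ℝ => ‖(∫ x : ℝ in a..b, Φ (x + (-T : ℝ) * I)) -
      (∫ x : ℝ in a..b, Φ (x + (T : ℝ) * I))‖) atTop (𝓝 0) := by
    refine squeeze_zero' (Eventually.of_forall fun _ => norm_nonneg _)
      (g := fun T : ℝ => 2 * (C * (1 + T ^ 2)⁻¹ * (b - a))) ?_ ?_
    · filter_upwards [eventually_gt_atTop 0] with T hT using hH T hT
    · have h2 : Tendsto (fun T : ℝ => (1 + T ^ 2)⁻¹) atTop (𝓝 0) := by
        refine tendsto_inv_atTop_zero.comp ?_
        exact tendsto_atTop_add_const_left _ _ (tendsto_pow_atTop two_ne_zero)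
      have h3 := ((h2.const_mul C).mul_const (b - a)).const_mul 2
      simpa using h3
  have hA := (intervalIntegral_tendsto_integral (hint a le_rfl hab) tendsto_neg_atTop_atBot
    tendsto_id)
  have hB := (intervalIntegral_tendsto_integral (hint b hab le_rfl) tendsto_neg_atTop_atBot
    tendsto_id)
  have hdiff : Tendsto (fun T : ℝ => ‖(∫ y : ℝ in (-T)..T, Φ (b + y * I)) -
      (∫ y : ℝ in (-T)..T, Φ (a + y * I))‖) atTop (𝓝 0) := by
    refine hlim.congr' ?_
    filter_upwards [eventually_gt_atTop 0] with T hT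
    have h1 := hrect T hT
    have h2 : (∫ x : ℝ in a..b, Φ (x + (-T : ℝ) * I)) - (∫ x : ℝ in a..b, Φ (x + (T : ℝ) * I)) =
        - (I * ((∫ y : ℝ in (-T)..T, Φ (b + y * I)) - (∫ y : ℝ in (-T)..T, Φ (a + y * I)))) := by
      simp only [smul_eq_mul] at h1
      linear_combination h1
    rw [h2, norm_neg, norm_mul, Complex.norm_I, one_mul]
  have hfin := (hB.sub hA).norm
  have := tendsto_nhds_unique hfin hdiff
  rw [norm_eq_zero, sub_eq_zero] at this
  exact this.symm

lemma gauss_pair_le {φ : ℝ → ℂ} (h1 : Integrable φ)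
    (h2 : Integrable (fun t => ‖φ t‖ ^ 2)) {δ : ℝ} (hδ : 0 < δ) :
    Integrable (fun v : ℝ => ‖∫ t : ℝ, cexp (2 * Real.pi * I * v * t) * φ t‖ ^ 2 *
      Real.exp (-(Real.pi * δ) * v ^ 2)) ∧
    ∫ v : ℝ, ‖∫ t : ℝ, cexp (2 * Real.pi * I * v * t) * φ t‖ ^ 2 *
      Real.exp (-(Real.pi * δ) * v ^ 2) ≤ ∫ t : ℝ, ‖φ t‖ ^ 2 := by
  set F : ℝ → ℂ := fun v => ∫ t : ℝ, cexp (2 * Real.pi * I * v * t) * φ t with hF
  set b : ℝ := Real.pi * δ with hb
  have hbp : 0 < b := by positivity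
  set a : ℝ × ℝ → ℂ := fun p => φ p.1 * (starRingEnd ℂ) (φ p.2) with ha
  have hconj : Integrable (fun t => (starRingEnd ℂ) (φ t)) := by
    refine h1.congr' ?_ ?_
    · exact (Complex.continuous_conj.comp_aestronglyMeasurable h1.aestronglyMeasurable)
    · exact Eventually.of_forall fun t => (Complex.norm_conj _).symm
  have haI : Integrable a (volume.prod volume) := h1.mul_prod hconj
  set G : ℝ → ℝ := fun x => √(1 / δ) * Real.exp (-(Real.pi / δ) * x ^ 2) with hG
  have hGI : Integrable G := (integrable_exp_neg_mul_sq (by positivity)).const_mul _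
  have hG1 : ∫ x, G x = 1 := by
    simp only [hG]
    rw [integral_const_mul, integral_gaussian, ← Real.sqrt_mul (by positivity)]
    have : 1 / δ * (Real.pi / (Real.pi / δ)) = 1 := by
      have := Real.pi_pos.ne'
      field_simp
    rw [this, Real.sqrt_one]
  have hG0 : ∀ x, 0 ≤ G x := fun x => by simp only [hG]; positivity
  have hGs : ∀ x, G (-x) = G x := fun x => by simp only [hG, neg_sq]
  -- the inner Gaussian integral
  have hgauss : ∀ x : ℝ, ∫ v : ℝ, cexp (2 * Real.pi * I * v * x) * (Real.exp (-b * v ^ 2) : ℂ) =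
      (G x : ℂ) := by
    intro x
    have h3 := fourierIntegral_gaussian (b := (b:ℂ)) (by simpa using hbp) (2 * Real.pi * x)
    have h4 : ∀ v : ℝ, cexp (2 * Real.pi * I * v * x) * (Real.exp (-b * v ^ 2) : ℂ) =
        cexp (I * (2 * Real.pi * x) * v) * cexp (-b * v ^ 2) := by
      intro v
      push_cast
      congr 2
      ring
    simp_rw [h4]
    rw [h3]
    simp only [hG]
    have e1 : (Real.pi / (b:ℂ)) = ((1 / δ : ℝ) : ℂ) := by
      rw [hb]; push_cast
      have := Real.pi_pos.ne'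
      have hp : (Real.pi : ℂ) ≠ 0 := by exact_mod_cast this
      have hd : (δ : ℂ) ≠ 0 := by exact_mod_cast hδ.ne'
      field_simp
    rw [e1]
    have e2 : ((1 / δ : ℝ) : ℂ) ^ (1 / 2 : ℂ) = (√(1 / δ) : ℂ) := by
      rw [Real.sqrt_eq_rpow, Complex.ofReal_cpow (by positivity)]
      norm_num
    rw [e2]
    push_cast
    congr 2
    rw [hb]; push_cast
    have hp : (Real.pi : ℂ) ≠ 0 := by exact_mod_cast Real.pi_pos.ne'
    have hd : (δ : ℂ) ≠ 0 := by exact_mod_cast hδ.ne'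
    field_simp
    ring
  -- the square as a double integral
  have hsq : ∀ v : ℝ, ((‖F v‖ ^ 2 : ℝ) : ℂ) =
      ∫ p : ℝ × ℝ, cexp (2 * Real.pi * I * v * ((p.1 - p.2 : ℝ) : ℂ)) * a p
        ∂(volume.prod volume) := by
    intro v
    have h3 : (starRingEnd ℂ) (F v) = ∫ t : ℝ, (starRingEnd ℂ) (cexp (2 * Real.pi * I * v * t) * φ t) := by
      rw [hF]; exact integral_conj.symm
    push_cast
    rw [← Complex.mul_conj', h3]
    simp only [hF]
    rw [← integral_prod_mul]
    refine integral_congr_ae (Eventually.of_forall fun p => ?_)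
    simp only [ha, map_mul, ← Complex.exp_conj, Complex.conj_I, Complex.conj_ofReal, map_ofNat]
    have : cexp (2 * Real.pi * I * v * ((p.1 : ℂ) - p.2)) =
        cexp (2 * Real.pi * I * v * p.1) * cexp (2 * Real.pi * -I * v * p.2) := by
      rw [← Complex.exp_add]
      congr 1
      ring
    rw [this]
    ring
  have hIntP : Integrable (Function.uncurry fun (v : ℝ) (p : ℝ × ℝ) =>
      (cexp (2 * Real.pi * I * v * ((p.1 - p.2 : ℝ) : ℂ)) * a p) * (Real.exp (-b * v ^ 2) : ℂ))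
      (volume.prod (volume.prod volume)) := by
    have h3 : Integrable (fun z : ℝ × (ℝ × ℝ) => (Real.exp (-b * z.1 ^ 2) : ℂ) * a z.2)
        (volume.prod (volume.prod volume)) :=
      Integrable.mul_prod (integrable_exp_neg_mul_sq hbp).ofReal haI
    refine h3.congr' ?_ ?_
    · refine AEStronglyMeasurable.mul (AEStronglyMeasurable.mul ?_ ?_) ?_
      · exact Continuous.aestronglyMeasurable (by fun_prop)
      · exact haI.aestronglyMeasurable.comp_snd
      · exact Continuous.aestronglyMeasurable (by fun_prop)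
    · refine Eventually.of_forall fun z => ?_
      simp only [Function.uncurry, norm_mul]
      have : ‖cexp (2 * Real.pi * I * z.1 * ((z.2.1 - z.2.2 : ℝ) : ℂ))‖ = 1 := by
        have e : (2 * Real.pi * I * z.1 * ((z.2.1 - z.2.2 : ℝ) : ℂ)) =
            ((2 * Real.pi * z.1 * (z.2.1 - z.2.2) : ℝ) : ℂ) * I := by push_cast; ring
        rw [e, Complex.norm_exp_ofReal_mul_I]
      rw [this]
      ring
  have hrep : ∀ v : ℝ, ((‖F v‖ ^ 2 * Real.exp (-b * v ^ 2) : ℝ) : ℂ) =
      ∫ p : ℝ × ℝ, (cexp (2 * Real.pi * I * v * ((p.1 - p.2 : ℝ) : ℂ)) * a p) *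
        (Real.exp (-b * v ^ 2) : ℂ) ∂(volume.prod volume) := by
    intro v
    rw [integral_mul_const, ← hsq v]
    push_cast
    ring
  have hI1 : Integrable (fun v : ℝ => ‖F v‖ ^ 2 * Real.exp (-b * v ^ 2)) := by
    have h3 := hIntP.integral_prod_left
    have h4 : Integrable (fun v : ℝ => ((‖F v‖ ^ 2 * Real.exp (-b * v ^ 2) : ℝ) : ℂ)) := by
      refine h3.congr (Eventually.of_forall fun v => ?_)
      exact (hrep v).symm
    exact_mod_cast h4.re
  refine ⟨hI1, ?_⟩
  have h5 : ((∫ v : ℝ, ‖F v‖ ^ 2 * Real.exp (-b * v ^ 2) : ℝ) : ℂ) =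
      ∫ p : ℝ × ℝ, a p * (G (p.1 - p.2) : ℂ) ∂(volume.prod volume) := by
    rw [← integral_complex_ofReal]
    simp_rw [hrep]
    rw [integral_integral_swap hIntP]
    refine integral_congr_ae (Eventually.of_forall fun p => ?_)
    simp only
    rw [← hgauss, ← integral_const_mul]
    refine integral_congr_ae (Eventually.of_forall fun v => ?_)
    simp only
    ring
  have hm1 : Integrable (fun p : ℝ × ℝ => ‖φ p.2‖ ^ 2 * G (p.1 - p.2)) (volume.prod volume) := by
    have := Integrable.convolution_integrand (ContinuousLinearMap.mul ℝ ℝ) (μ := volume)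
      (ν := volume) h2 hGI
    simpa using this
  have hm2 : Integrable (fun p : ℝ × ℝ => ‖φ p.1‖ ^ 2 * G (p.1 - p.2)) (volume.prod volume) := by
    have := hm1.swap
    refine this.congr (Eventually.of_forall fun p => ?_)
    simp only [Function.comp, Prod.fst_swap, Prod.snd_swap]
    rw [← hGs, neg_sub]
  have hv1 : ∫ p : ℝ × ℝ, ‖φ p.2‖ ^ 2 * G (p.1 - p.2) ∂(volume.prod volume) = ∫ t, ‖φ t‖ ^ 2 := by
    rw [integral_prod_symm _ hm1]
    refine integral_congr_ae (Eventually.of_forall fun t => ?_)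
    simp only
    rw [integral_const_mul, integral_sub_right_eq_self G t, hG1, mul_one]
  have hv2 : ∫ p : ℝ × ℝ, ‖φ p.1‖ ^ 2 * G (p.1 - p.2) ∂(volume.prod volume) = ∫ t, ‖φ t‖ ^ 2 := by
    rw [integral_prod _ hm2]
    refine integral_congr_ae (Eventually.of_forall fun t => ?_)
    simp only
    rw [integral_const_mul, integral_sub_left_eq_self G volume t, hG1, mul_one]
  have h6 : ‖((∫ v : ℝ, ‖F v‖ ^ 2 * Real.exp (-b * v ^ 2) : ℝ) : ℂ)‖ ≤ ∫ t, ‖φ t‖ ^ 2 := by
    rw [h5]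
    have h7 : ∫ p : ℝ × ℝ, (1 / 2 * (‖φ p.1‖ ^ 2 * G (p.1 - p.2)) +
        1 / 2 * (‖φ p.2‖ ^ 2 * G (p.1 - p.2))) ∂(volume.prod volume) = ∫ t, ‖φ t‖ ^ 2 := by
      rw [integral_add (hm2.const_mul _) (hm1.const_mul _), integral_const_mul,
        integral_const_mul, hv1, hv2]
      ring
    rw [← h7]
    refine norm_integral_le_of_norm_le ((hm2.const_mul _).add (hm1.const_mul _)) ?_
    refine Eventually.of_forall fun p => ?_
    simp only [ha, norm_mul, Complex.norm_conj, Complex.norm_real, Real.norm_eq_abs,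
      abs_of_nonneg (hG0 _), Pi.add_apply]
    have := hG0 (p.1 - p.2)
    nlinarith [mul_nonneg (sq_nonneg (‖φ p.1‖ - ‖φ p.2‖)) this]
  rw [Complex.norm_real] at h6
  exact (le_abs_self _).trans h6

/-- The Plancherel inequality for functions in `L¹ ∩ L²`. -/
lemma lintegral_fourier_sq_le {φ : ℝ → ℂ} (h1 : Integrable φ)
    (h2 : Integrable (fun t => ‖φ t‖ ^ 2)) :
    ∫⁻ v : ℝ, ENNReal.ofReal (‖∫ t : ℝ, cexp (2 * Real.pi * I * v * t) * φ t‖ ^ 2) ≤
      ENNReal.ofReal (∫ t : ℝ, ‖φ t‖ ^ 2) := by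
  set F : ℝ → ℂ := fun v => ∫ t : ℝ, cexp (2 * Real.pi * I * v * t) * φ t with hF
  set g : ℕ → ℝ → ENNReal := fun n v =>
    ENNReal.ofReal (‖F v‖ ^ 2 * Real.exp (-(Real.pi * (1 / ((n:ℝ) + 1))) * v ^ 2)) with hg
  have hδ : ∀ n : ℕ, (0:ℝ) < 1 / ((n:ℝ) + 1) := fun n => by positivity
  have h3 : ∀ n, ∫⁻ v, g n v ≤ ENNReal.ofReal (∫ t : ℝ, ‖φ t‖ ^ 2) := by
    intro n
    obtain ⟨hI, hle⟩ := gauss_pair_le h1 h2 (hδ n)
    simp only [hg]
    rw [← ofReal_integral_eq_lintegral_ofReal hI (Eventually.of_forall fun v => by positivity)]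
    exact ENNReal.ofReal_le_ofReal hle
  have h4 : ∀ v, liminf (fun n => g n v) atTop = ENNReal.ofReal (‖F v‖ ^ 2) := by
    intro v
    refine Tendsto.liminf_eq ?_
    refine (ENNReal.continuous_ofReal.tendsto _).comp ?_
    have h5 : Tendsto (fun n : ℕ => -(Real.pi * (1 / ((n:ℝ) + 1))) * v ^ 2) atTop (𝓝 0) := by
      have := ((tendsto_one_div_add_atTop_nhds_zero_nat (𝕜 := ℝ)).const_mul Real.pi).neg.mul_const
        (v ^ 2)
      simpa using this
    have h6 := ((Real.continuous_exp.tendsto 0).comp h5).const_mul (‖F v‖ ^ 2)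
    simpa using h6
  calc ∫⁻ v : ℝ, ENNReal.ofReal (‖F v‖ ^ 2) = ∫⁻ v, liminf (fun n => g n v) atTop := by
        simp_rw [h4]
    _ ≤ liminf (fun n => ∫⁻ v, g n v) atTop := by
        refine lintegral_liminf_le' fun n => ?_
        exact (gauss_pair_le h1 h2 (hδ n)).1.aestronglyMeasurable.aemeasurable.ennreal_ofReal
    _ ≤ ENNReal.ofReal (∫ t : ℝ, ‖φ t‖ ^ 2) := by
        refine liminf_le_of_le (by isBoundedDefault) fun c hc => ?_
        obtain ⟨n, hn⟩ := hc.exists
        exact hn.trans (h3 n)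

open scoped FourierTransform RealInnerProductSpace in
lemma tendsto_gauss {w : ℝ → ℂ} (hw : Integrable w) {v : ℝ} (hv : ContinuousAt w v) :
    Tendsto (fun N : ℝ => ∫ ξ : ℝ, cexp (-(N:ℂ)⁻¹ * ξ ^ 2 + 2 * Real.pi * I * v * ξ) * 𝓕 w ξ)
      atTop (𝓝 (w v)) := by
  have h1 := Real.tendsto_integral_gaussian_smul' hw hv
  refine h1.congr' ?_
  filter_upwards [Ioi_mem_atTop 0] with N (hN : 0 < N)
  have J : Integrable (fun x : ℝ ↦ cexp (- (N:ℂ)⁻¹ * ‖x‖ ^ 2 + 2 * Real.pi * I * ⟪v, x⟫)) :=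
    GaussianFourier.integrable_cexp_neg_mul_sq_norm_add (by
      have : ((N:ℂ)⁻¹).re = N⁻¹ := by rw [← Complex.ofReal_inv, Complex.ofReal_re]
      rw [this]; positivity) _ _
  have h2 := VectorFourier.integral_fourierIntegral_smul_eq_flip (L := innerₗ ℝ)
      Real.continuous_fourierChar continuous_inner J hw
  have h3 : ∫ ξ : ℝ, cexp (-(N:ℂ)⁻¹ * ξ ^ 2 + 2 * Real.pi * I * v * ξ) * 𝓕 w ξ =
      ∫ ξ : ℝ, 𝓕 (fun x : ℝ ↦ cexp (- (N:ℂ)⁻¹ * ‖x‖ ^ 2 + 2 * Real.pi * I * ⟪v, x⟫)) ξ • w ξ := by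
    refine Eq.trans ?_ h2.symm
    refine integral_congr_ae (Eventually.of_forall fun ξ => ?_)
    simp only [smul_eq_mul]
    congr 1
    · congr 1
      simp only [Real.norm_eq_abs, Real.inner_apply]
      have : ((|ξ| : ℝ) : ℂ) ^ 2 = (ξ:ℂ) ^ 2 := by
        rw [← Complex.ofReal_pow, sq_abs, Complex.ofReal_pow]
      rw [this]
      push_cast
      ring
    · rw [flip_innerₗ]
      rfl
  rw [h3]
  refine integral_congr_ae (Eventually.of_forall fun ξ => ?_)
  simp only
  rw [fourier_gaussian_innerProductSpace' (by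
      have : ((N:ℂ)⁻¹).re = N⁻¹ := by rw [← Complex.ofReal_inv, Complex.ofReal_re]
      rw [this]; positivity)]
  rw [div_inv_eq_mul, div_inv_eq_mul]
  congr 3
  ring


lemma integrable_rpow_abs {κ : ℝ} (hκ : 0 < κ) :
    Integrable (fun ξ : ℝ => (2 * Real.pi * |ξ| + 2) ^ (-1 - 2 * κ)) := by
  have h1 : Integrable (fun ξ : ℝ => (1 + ‖ξ‖) ^ (-(1 + 2 * κ))) :=
    integrable_one_add_norm (by simp; linarith)
  refine h1.mono' ?_ ?_
  · refine Continuous.aestronglyMeasurable ?_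
    refine Continuous.rpow_const (by fun_prop) fun ξ => Or.inl ?_
    have := Real.pi_pos
    positivity
  · refine Eventually.of_forall fun ξ => ?_
    have hp := Real.pi_gt_three
    rw [Real.norm_of_nonneg (by positivity), Real.norm_eq_abs]
    have e : -1 - 2 * κ = -(1 + 2 * κ) := by ring
    rw [e, Real.rpow_neg (by positivity), Real.rpow_neg (by positivity)]
    have h0 : 0 ≤ |ξ| := abs_nonneg ξ
    exact inv_anti₀ (by positivity) (Real.rpow_le_rpow (by positivity) (by nlinarith) (by positivity))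

/-- If the transform of `w` on the line `Re s = c` extends to `σ ≤ Re s ≤ c` with a bound
that is square integrable on vertical lines, then `w(v) e^{(c-σ)v}` is square integrable. -/
theorem sq_integrable_of_strip {w : ℝ → ℂ} {K : ℂ → ℂ} {σ c C κ : ℝ} (hσc : σ ≤ c) (hκ : 0 < κ)
    (hw : Integrable w) (hcont : ∀ᵐ v, ContinuousAt w v)
    (hK : ∀ t : ℝ, K (c + t * I) = ∫ v : ℝ, cexp (-(t * v) * I) * w v)
    (hd : ∀ s : ℂ, σ ≤ s.re → s.re ≤ c → DifferentiableAt ℂ K s)
    (hb : ∀ s : ℂ, σ ≤ s.re → s.re ≤ c → ‖K s‖ ≤ C * (|s.im| + 2) ^ (-(1/2) - κ)) :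
    Integrable (fun v => ‖w v‖ ^ 2 * Real.exp (2 * (c - σ) * v)) := by
  have hpi := Real.pi_pos
  have hC0 : 0 ≤ C := by
    have h1 := (norm_nonneg _).trans (hb σ (by simp) (by simpa using hσc))
    exact nonneg_of_mul_nonneg_left h1 (by positivity)
  have hb1 : ∀ s : ℂ, σ ≤ s.re → s.re ≤ c → ‖K s‖ ≤ C := by
    intro s h1 h2
    refine (hb s h1 h2).trans (mul_le_of_le_one_right hC0 ?_)
    exact Real.rpow_le_one_of_one_le_of_nonpos (by linarith [abs_nonneg s.im]) (by linarith)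
  -- the shifted functions
  set d : ℝ := (c - σ) / (2 * Real.pi) with hdd
  set φ : ℕ → ℝ → ℂ := fun N ξ => K (σ + ((2 * Real.pi * ξ : ℝ) : ℂ) * I) *
    cexp (((N:ℂ) + 1)⁻¹ * (-(d:ℂ) + I * ξ) ^ 2) with hφ
  have hKcont : Continuous (fun ξ : ℝ => K (σ + ((2 * Real.pi * ξ : ℝ) : ℂ) * I)) := by
    rw [continuous_iff_continuousAt]
    intro t
    have h1 : ContinuousAt K (σ + ((2 * Real.pi * t : ℝ) : ℂ) * I) :=
      (hd _ (by simp) (by simpa using hσc)).continuousAt
    exact ContinuousAt.comp (f := fun t : ℝ => (σ + ((2 * Real.pi * t : ℝ) : ℂ) * I : ℂ)) h1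
      (by fun_prop)
  have hφcont : ∀ N, Continuous (φ N) := fun N => hKcont.mul (by fun_prop)
  have hφn : ∀ N ξ, ‖φ N ξ‖ = ‖K (σ + ((2 * Real.pi * ξ : ℝ) : ℂ) * I)‖ *
      (Real.exp (((N:ℝ) + 1)⁻¹ * d ^ 2) * Real.exp (-((N:ℝ) + 1)⁻¹ * ξ ^ 2)) := by
    intro N ξ
    simp only [hφ, norm_mul, Complex.norm_exp]
    congr 1
    rw [← Real.exp_add]
    congr 1
    have : (((N:ℂ) + 1)⁻¹ * (-(d:ℂ) + I * ξ) ^ 2) =
        ((((N:ℝ) + 1)⁻¹ * (d ^ 2 - ξ ^ 2) : ℝ) : ℂ) + ((-(((N:ℝ) + 1)⁻¹ * (2 * d * ξ)) : ℝ) : ℂ) * I := by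
      push_cast
      ring_nf
      rw [I_sq]
      ring
    rw [this, Complex.add_re, Complex.ofReal_re, Complex.re_ofReal_mul, Complex.I_re]
    ring
  have hφ1 : ∀ N, Integrable (φ N) := by
    intro N
    have h1 : Integrable (fun ξ : ℝ => C * (Real.exp (((N:ℝ) + 1)⁻¹ * d ^ 2) *
        Real.exp (-((N:ℝ) + 1)⁻¹ * ξ ^ 2))) :=
      ((integrable_exp_neg_mul_sq (by positivity)).const_mul _).const_mul _
    refine h1.mono' (hφcont N).aestronglyMeasurable (Eventually.of_forall fun ξ => ?_)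
    rw [hφn]
    gcongr
    exact hb1 _ (by simp) (by simpa using hσc)
  set M : ℝ := Real.exp (d ^ 2) ^ 2 * (C ^ 2 * ∫ ξ : ℝ, (2 * Real.pi * |ξ| + 2) ^ (-1 - 2 * κ))
    with hM
  have hφle : ∀ N ξ, ‖φ N ξ‖ ^ 2 ≤ Real.exp (d ^ 2) ^ 2 * (C ^ 2 *
      (2 * Real.pi * |ξ| + 2) ^ (-1 - 2 * κ)) := by
    intro N ξ
    have h1 : ‖φ N ξ‖ ≤ (C * (2 * Real.pi * |ξ| + 2) ^ (-(1/2) - κ)) * Real.exp (d ^ 2) := by
      rw [hφn]
      have h2 := hb (σ + ((2 * Real.pi * ξ : ℝ) : ℂ) * I) (by simp) (by simpa using hσc)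
      have h3 : |(σ + ((2 * Real.pi * ξ : ℝ) : ℂ) * I : ℂ).im| = 2 * Real.pi * |ξ| := by
        simp [abs_mul, abs_of_pos hpi]
      rw [h3] at h2
      have h4 : Real.exp (((N:ℝ) + 1)⁻¹ * d ^ 2) * Real.exp (-((N:ℝ) + 1)⁻¹ * ξ ^ 2) ≤
          Real.exp (d ^ 2) := by
        rw [← Real.exp_add]
        apply Real.exp_le_exp.mpr
        have h5 : ((N:ℝ) + 1)⁻¹ ≤ 1 := by
          apply inv_le_one_of_one_le₀
          have : (0:ℝ) ≤ N := Nat.cast_nonneg N
          linarith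
        have h6 : 0 ≤ ((N:ℝ) + 1)⁻¹ := by positivity
        nlinarith [sq_nonneg d, sq_nonneg ξ, mul_nonneg h6 (sq_nonneg ξ),
          mul_le_mul_of_nonneg_right h5 (sq_nonneg d)]
      gcongr
    calc ‖φ N ξ‖ ^ 2 ≤ ((C * (2 * Real.pi * |ξ| + 2) ^ (-(1/2) - κ)) * Real.exp (d ^ 2)) ^ 2 := by
          gcongr
      _ = Real.exp (d ^ 2) ^ 2 * (C ^ 2 * ((2 * Real.pi * |ξ| + 2) ^ (-(1/2) - κ) *
          (2 * Real.pi * |ξ| + 2) ^ (-(1/2) - κ))) := by ring
      _ = _ := by
          rw [← Real.rpow_add (by positivity)]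
          congr 3
          ring
  have hφ2 : ∀ N, Integrable (fun ξ => ‖φ N ξ‖ ^ 2) := by
    intro N
    refine Integrable.mono' (((integrable_rpow_abs hκ).const_mul (C ^ 2)).const_mul
      (Real.exp (d ^ 2) ^ 2))
      ((hφcont N).norm.pow 2).aestronglyMeasurable (Eventually.of_forall fun ξ => ?_)
    rw [Real.norm_of_nonneg (by positivity)]
    exact hφle N ξ
  have hφM : ∀ N, ∫ ξ, ‖φ N ξ‖ ^ 2 ≤ M := by
    intro N
    rw [hM, ← integral_const_mul, ← integral_const_mul]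
    exact integral_mono (hφ2 N) (((integrable_rpow_abs hκ).const_mul (C ^ 2)).const_mul _) (hφle N)
  -- the Fourier transform of `w`
  have hF : ∀ ξ : ℝ, FourierTransform.fourier w ξ = K (c + ((2 * Real.pi * ξ : ℝ) : ℂ) * I) := by
    intro ξ
    rw [hK, Real.fourier_real_eq_integral_exp_smul]
    refine integral_congr_ae (Eventually.of_forall fun v => ?_)
    simp only [smul_eq_mul]
    congr 2
    push_cast
    ring
  -- the contour shift
  have hshift : ∀ (N : ℕ) (v : ℝ), ∫ ξ : ℝ, cexp (-(((N:ℝ) + 1 : ℝ) : ℂ)⁻¹ * ξ ^ 2 +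
      2 * Real.pi * I * v * ξ) * FourierTransform.fourier w ξ =
      cexp (-(v * (c - σ) : ℝ)) * ∫ ξ : ℝ, cexp (2 * Real.pi * I * v * ξ) * φ N ξ := by
    intro N v
    set n : ℝ := (N:ℝ) + 1 with hn
    have hn1 : 1 ≤ n := by
      have : (0:ℝ) ≤ N := Nat.cast_nonneg N
      linarith
    have hn0 : 0 < n := by linarith
    have hpC : (Real.pi : ℂ) ≠ 0 := by exact_mod_cast hpi.ne'
    have hnC : (n : ℂ) ≠ 0 := by exact_mod_cast hn0.ne'
    set Φ : ℂ → ℂ := fun s => K s * cexp ((n:ℂ)⁻¹ * ((s - c) / (2 * Real.pi)) ^ 2 + v * (s - c))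
      with hΦ
    have hv := vert_shift (Φ := Φ) (a := σ) (b := c)
      (C := C * Real.exp (n⁻¹ * d ^ 2 + |v| * (c - σ)) * (4 * Real.pi ^ 2 * n)) hσc
      (fun s h1 h2 => (hd s h1 h2).mul (by fun_prop)) (by
        intro s h1 h2
        simp only [hΦ, norm_mul, Complex.norm_exp]
        have e1 : ((n:ℂ)⁻¹ * ((s - c) / (2 * Real.pi)) ^ 2 + v * (s - c)).re =
            n⁻¹ * (((c - s.re) / (2 * Real.pi)) ^ 2 - s.im ^ 2 / (4 * Real.pi ^ 2)) +
              v * (s.re - c) := by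
          have e2 : ((n:ℂ)⁻¹ * ((s - c) / (2 * Real.pi)) ^ 2 + v * (s - c)) =
              ((n⁻¹ / (4 * Real.pi ^ 2) : ℝ) : ℂ) * ((s - c) ^ 2) + (v:ℂ) * (s - c) := by
            push_cast
            field_simp
            ring
          rw [e2, Complex.add_re, Complex.re_ofReal_mul, Complex.re_ofReal_mul]
          have e3 : ((s - c) ^ 2 : ℂ).re = (s.re - c) ^ 2 - s.im ^ 2 := by
            rw [sq, Complex.mul_re]; simp; ring
          rw [e3]
          simp
          field_simp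
          ring
        rw [e1]
        have h3 : ((c - s.re) / (2 * Real.pi)) ^ 2 ≤ d ^ 2 := by
          rw [hdd]
          have h4 : 0 ≤ (c - s.re) / (2 * Real.pi) := div_nonneg (by linarith) (by positivity)
          gcongr
        have h5 : v * (s.re - c) ≤ |v| * (c - σ) := by
          calc v * (s.re - c) = (-v) * (c - s.re) := by ring
            _ ≤ |v| * (c - s.re) :=
              mul_le_mul_of_nonneg_right (neg_le_abs v) (by linarith)
            _ ≤ |v| * (c - σ) := mul_le_mul_of_nonneg_left (by linarith) (abs_nonneg v)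
        have h6 : Real.exp (n⁻¹ * (((c - s.re) / (2 * Real.pi)) ^ 2 -
            s.im ^ 2 / (4 * Real.pi ^ 2)) + v * (s.re - c)) ≤
            Real.exp (n⁻¹ * d ^ 2 + |v| * (c - σ)) *
              Real.exp (-(s.im ^ 2 / (4 * Real.pi ^ 2 * n))) := by
          rw [← Real.exp_add]
          apply Real.exp_le_exp.mpr
          have h7 : n⁻¹ * (((c - s.re) / (2 * Real.pi)) ^ 2 - s.im ^ 2 / (4 * Real.pi ^ 2)) =
              n⁻¹ * ((c - s.re) / (2 * Real.pi)) ^ 2 - s.im ^ 2 / (4 * Real.pi ^ 2 * n) := by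
            field_simp
          rw [h7]
          have h8 := mul_le_mul_of_nonneg_left h3 (inv_nonneg.mpr hn0.le)
          linarith
        have h9 : Real.exp (-(s.im ^ 2 / (4 * Real.pi ^ 2 * n))) ≤
            (4 * Real.pi ^ 2 * n) * (1 + s.im ^ 2)⁻¹ := by
          have h10 : 1 + s.im ^ 2 / (4 * Real.pi ^ 2 * n) ≤
              Real.exp (s.im ^ 2 / (4 * Real.pi ^ 2 * n)) := by
            have := Real.add_one_le_exp (s.im ^ 2 / (4 * Real.pi ^ 2 * n))
            linarith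
          have h11 : (1:ℝ) ≤ 4 * Real.pi ^ 2 * n := by
            have := Real.pi_gt_three
            nlinarith
          have h12 : 0 < 4 * Real.pi ^ 2 * n := by linarith
          rw [Real.exp_neg, ← div_eq_mul_inv, ← one_div, div_le_div_iff₀ (Real.exp_pos _)
            (by positivity)]
          have h13 : (4 * Real.pi ^ 2 * n) * (1 + s.im ^ 2 / (4 * Real.pi ^ 2 * n)) =
              4 * Real.pi ^ 2 * n + s.im ^ 2 := by field_simp
          have h14 := mul_le_mul_of_nonneg_left h10 h12.le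
          rw [h13] at h14
          linarith
        calc ‖K s‖ * Real.exp (n⁻¹ * (((c - s.re) / (2 * Real.pi)) ^ 2 -
              s.im ^ 2 / (4 * Real.pi ^ 2)) + v * (s.re - c))
            ≤ C * (Real.exp (n⁻¹ * d ^ 2 + |v| * (c - σ)) *
              ((4 * Real.pi ^ 2 * n) * (1 + s.im ^ 2)⁻¹)) := by
              refine mul_le_mul (hb1 s h1 h2) (h6.trans ?_) (Real.exp_pos _).le hC0
              exact mul_le_mul_of_nonneg_left h9 (Real.exp_pos _).le
          _ = _ := by ring)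
    have hcov : ∀ x : ℝ, ∫ ξ : ℝ, Φ (x + ((2 * Real.pi * ξ : ℝ) : ℂ) * I) =
        |(2 * Real.pi)⁻¹| • ∫ t : ℝ, Φ (x + t * I) := by
      intro x
      exact Measure.integral_comp_mul_left (fun t : ℝ => Φ (x + t * I)) (2 * Real.pi)
    have h1 : ∫ ξ : ℝ, cexp (-((n:ℝ) : ℂ)⁻¹ * ξ ^ 2 +
        2 * Real.pi * I * v * ξ) * FourierTransform.fourier w ξ =
        ∫ ξ : ℝ, Φ (c + ((2 * Real.pi * ξ : ℝ) : ℂ) * I) := by
      refine integral_congr_ae (Eventually.of_forall fun ξ => ?_)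
      simp only [hΦ]
      rw [hF, mul_comm]
      congr 2
      push_cast
      field_simp
      ring_nf
      rw [I_sq]
      ring
    have h2 : ∫ ξ : ℝ, Φ (σ + ((2 * Real.pi * ξ : ℝ) : ℂ) * I) =
        cexp (-(v * (c - σ) : ℝ)) * ∫ ξ : ℝ, cexp (2 * Real.pi * I * v * ξ) * φ N ξ := by
      rw [← integral_const_mul]
      refine integral_congr_ae (Eventually.of_forall fun ξ => ?_)
      simp only [hΦ, hφ]
      have e1 : cexp ((n:ℂ)⁻¹ * (((σ:ℂ) + ((2 * Real.pi * ξ : ℝ) : ℂ) * I - c) /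
          (2 * Real.pi)) ^ 2 + v * ((σ:ℂ) + ((2 * Real.pi * ξ : ℝ) : ℂ) * I - c)) =
          cexp (-(v * (c - σ) : ℝ)) * (cexp (2 * Real.pi * I * v * ξ) *
            cexp (((N:ℂ) + 1)⁻¹ * (-(d:ℂ) + I * ξ) ^ 2)) := by
        rw [← Complex.exp_add, ← Complex.exp_add]
        congr 1
        rw [hdd, hn]
        push_cast
        have h3 : ((N:ℂ) + 1) ≠ 0 := by
          have : (n:ℂ) = (N:ℂ) + 1 := by rw [hn]; push_cast; ring
          rw [← this]; exact hnC
        field_simp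
        ring
      rw [e1]
      ring
    rw [h1, hcov, ← hv, ← hcov, h2]
  -- the limit
  have hlim : ∀ᵐ v : ℝ, Tendsto (fun N : ℕ => ENNReal.ofReal
      (‖∫ ξ : ℝ, cexp (2 * Real.pi * I * v * ξ) * φ N ξ‖ ^ 2)) atTop
      (𝓝 (ENNReal.ofReal (‖w v‖ ^ 2 * Real.exp (2 * (c - σ) * v)))) := by
    filter_upwards [hcont] with v hv
    refine (ENNReal.continuous_ofReal.tendsto _).comp ?_
    have h1 := tendsto_gauss hw hv
    have h2 : Tendsto (fun N : ℕ => (N:ℝ) + 1) atTop atTop :=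
      tendsto_atTop_add_const_right _ _ tendsto_natCast_atTop_atTop
    have h3 := h1.comp h2
    have h4 := ((h3.norm.pow 2).mul_const (Real.exp (2 * (c - σ) * v)))
    refine h4.congr fun N => ?_
    simp only [Function.comp]
    rw [hshift N v, norm_mul, mul_pow]
    have e1 : ‖cexp (-(v * (c - σ) : ℝ))‖ ^ 2 * Real.exp (2 * (c - σ) * v) = 1 := by
      rw [Complex.norm_exp, sq, ← Real.exp_add, ← Real.exp_add]
      have : ((-((v * (c - σ) : ℝ) : ℂ)).re + (-((v * (c - σ) : ℝ) : ℂ)).re +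
          2 * (c - σ) * v) = 0 := by
        simp; ring
      rw [this, Real.exp_zero]
    calc ‖cexp (-(v * (c - σ) : ℝ))‖ ^ 2 *
          ‖∫ ξ : ℝ, cexp (2 * Real.pi * I * v * ξ) * φ N ξ‖ ^ 2 * Real.exp (2 * (c - σ) * v)
        = (‖cexp (-(v * (c - σ) : ℝ))‖ ^ 2 * Real.exp (2 * (c - σ) * v)) *
          ‖∫ ξ : ℝ, cexp (2 * Real.pi * I * v * ξ) * φ N ξ‖ ^ 2 := by ring
      _ = _ := by rw [e1, one_mul]
  have hfin : ∫⁻ v : ℝ, ENNReal.ofReal (‖w v‖ ^ 2 * Real.exp (2 * (c - σ) * v)) ≤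
      ENNReal.ofReal M := by
    calc ∫⁻ v : ℝ, ENNReal.ofReal (‖w v‖ ^ 2 * Real.exp (2 * (c - σ) * v))
        = ∫⁻ v : ℝ, liminf (fun N : ℕ => ENNReal.ofReal
            (‖∫ ξ : ℝ, cexp (2 * Real.pi * I * v * ξ) * φ N ξ‖ ^ 2)) atTop := by
          refine lintegral_congr_ae ?_
          filter_upwards [hlim] with v hv
          exact hv.liminf_eq.symm
      _ ≤ liminf (fun N : ℕ => ∫⁻ v : ℝ, ENNReal.ofReal
            (‖∫ ξ : ℝ, cexp (2 * Real.pi * I * v * ξ) * φ N ξ‖ ^ 2)) atTop := by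
          refine lintegral_liminf_le' fun N => ?_
          have hcontF : Continuous (fun v : ℝ => ∫ ξ : ℝ, cexp (2 * Real.pi * I * v * ξ) * φ N ξ) := by
            refine continuous_of_dominated (bound := fun ξ => ‖φ N ξ‖) ?_ ?_ (hφ1 N).norm ?_
            · intro v
              exact (Continuous.mul (by fun_prop) (hφcont N)).aestronglyMeasurable
            · intro v
              refine Eventually.of_forall fun ξ => ?_
              rw [norm_mul]
              have e : (2 * Real.pi * I * v * ξ) = ((2 * Real.pi * v * ξ : ℝ) : ℂ) * I := by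
                push_cast; ring
              rw [e, Complex.norm_exp_ofReal_mul_I, one_mul]
            · refine Eventually.of_forall fun ξ => ?_
              fun_prop
          exact (hcontF.norm.pow 2).measurable.ennreal_ofReal.aemeasurable
      _ ≤ ENNReal.ofReal M := by
          refine liminf_le_of_le (by isBoundedDefault) fun a ha => ?_
          obtain ⟨N, hN⟩ := ha.exists
          refine hN.trans ((lintegral_fourier_sq_le (hφ1 N) (hφ2 N)).trans ?_)
          exact ENNReal.ofReal_le_ofReal (hφM N)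
  have hmeas : AEStronglyMeasurable (fun v => ‖w v‖ ^ 2 * Real.exp (2 * (c - σ) * v)) volume := by
    refine (hw.aestronglyMeasurable.norm.pow 2).mul ?_
    exact Continuous.aestronglyMeasurable (by fun_prop)
  refine ⟨hmeas, ?_⟩
  rw [hasFiniteIntegral_iff_ofReal (Eventually.of_forall fun v => by positivity)]
  exact hfin.trans_lt ENNReal.ofReal_lt_top

end Pool.Agent.SqFull
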