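import Mathlib

/-!
# Square-full integers: counting function and generating Dirichlet series
-/

open Complex Filter Topology Set MeasureTheory

namespace Pool.Agent.SqFull

/-- A positive integer `m` is square-full if `p ^ 2 ∣ m` for every prime `p ∣ m`. -/
def SquareFull (m : ℕ) : Prop := m ≠ 0 ∧ ∀ p : ℕ, p.Prime → p ∣ m → p ^ 2 ∣ m

/-- The number of square-full integers `m ≤ x`. -/
noncomputable def N2 (x : ℝ) : ℕ := {m : ℕ | SquareFull m ∧ (m : ℝ) ≤ x}.ncard

open Classical in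
/-- The indicator function of the square-full integers. -/
noncomputable def ind (m : ℕ) : ℂ := if SquareFull m then 1 else 0

lemma squareFull_one : SquareFull 1 := by
  refine ⟨one_ne_zero, fun p hp h => ?_⟩
  exact absurd (Nat.dvd_one.mp h) hp.ne_one

lemma squareFull_mul {m n : ℕ} (h : m.Coprime n) :
    SquareFull (m * n) ↔ SquareFull m ∧ SquareFull n := by
  constructor
  · rintro ⟨h0, h1⟩
    have key : ∀ m n : ℕ, m.Coprime n → m * n ≠ 0 →
        (∀ p : ℕ, p.Prime → p ∣ m * n → p ^ 2 ∣ m * n) → SquareFull m := by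
      intro m n h h0 h1
      refine ⟨left_ne_zero_of_mul h0, fun p hp hpm => ?_⟩
      have h2 := h1 p hp (hpm.mul_right n)
      have h3 : (p ^ 2).Coprime n := (h.coprime_dvd_left hpm).pow_left 2
      exact h3.dvd_of_dvd_mul_right h2
    refine ⟨key m n h h0 h1, key n m h.symm (by rwa [mul_comm]) ?_⟩
    rwa [mul_comm]
  · rintro ⟨⟨h0, h1⟩, ⟨h2, h3⟩⟩
    refine ⟨mul_ne_zero h0 h2, fun p hp hd => ?_⟩
    rcases hp.dvd_mul.mp hd with h4 | h4
    · exact (h1 p hp h4).mul_right n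
    · exact (h3 p hp h4).mul_left m

lemma squareFull_prime_pow {p : ℕ} (hp : p.Prime) (e : ℕ) : SquareFull (p ^ e) ↔ e ≠ 1 := by
  constructor
  · rintro ⟨-, h⟩ rfl
    have h1 := h p hp (by simp)
    have h2 := (Nat.pow_dvd_pow_iff_le_right hp.one_lt).mp h1
    omega
  · intro he
    refine ⟨pow_ne_zero _ hp.ne_zero, fun q hq h => ?_⟩
    have h1 : q = p := (Nat.prime_dvd_prime_iff_eq hq hp).mp (hq.dvd_of_dvd_pow h)
    subst h1
    have h2 : e ≠ 0 := by
      rintro rfl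
      exact hq.ne_one (Nat.dvd_one.mp (by simpa using h))
    exact pow_dvd_pow _ (by omega)

/-- A square-full integer has the form `a² b³`. -/
lemma squareFull_rep {m : ℕ} (hm : SquareFull m) : ∃ p : ℕ × ℕ, m = p.1 ^ 2 * p.2 ^ 3 := by
  obtain ⟨l, k, h, hl⟩ := Nat.sq_mul_squarefree m
  have h1 : l ∣ k := by
    rw [← Nat.prod_primeFactors_of_squarefree hl]
    refine Finset.prod_primes_dvd k (fun p hp => (Nat.prime_of_mem_primeFactors hp).prime) ?_
    intro p hp
    have hpp := Nat.prime_of_mem_primeFactors hp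
    have hpl := Nat.dvd_of_mem_primeFactors hp
    by_contra hpk
    have h2 : p ^ 2 ∣ k ^ 2 * l := by
      rw [h]
      refine hm.2 p hpp ?_
      rw [← h]
      exact hpl.mul_left _
    have h3 : (p ^ 2).Coprime (k ^ 2) := ((Nat.Prime.coprime_iff_not_dvd hpp).mpr hpk).pow 2 2
    have h4 := h3.dvd_of_dvd_mul_left h2
    rw [sq] at h4
    exact hpp.one_lt.ne' (Nat.isUnit_iff.mp (hl p h4))
  obtain ⟨c, hc⟩ := h1
  refine ⟨(c, l), ?_⟩
  rw [← h, hc]
  ring

lemma squareFull_zero : ¬ SquareFull 0 := fun h => h.1 rfl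

lemma ind_zero : ind 0 = 0 := by simp [ind, squareFull_zero]

lemma norm_ind_nonneg (m : ℕ) : ‖ind m‖ = (ind m).re := by
  unfold ind; split_ifs <;> simp

/-- Convergence of the Dirichlet series of the square-full integers. -/
lemma summable_squareFull {σ : ℝ} (hσ : 1 / 2 < σ) :
    Summable (fun m : ℕ => ‖ind m‖ * (m:ℝ) ^ (-σ)) := by
  have h1 : Summable (fun a : ℕ => (a:ℝ) ^ (-(2 * σ))) := by
    rw [Real.summable_nat_rpow]; linarith
  have h2 : Summable (fun a : ℕ => (a:ℝ) ^ (-(3 * σ))) := by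
    rw [Real.summable_nat_rpow]; linarith
  have h3 : Summable (fun p : ℕ × ℕ => (p.1:ℝ) ^ (-(2 * σ)) * (p.2:ℝ) ^ (-(3 * σ))) :=
    h1.mul_of_nonneg h2 (fun _ => by positivity) (fun _ => by positivity)
  have h4 : Summable (fun m : {m : ℕ | SquareFull m} => ((m:ℕ):ℝ) ^ (-σ)) := by
    choose r hr using fun m : {m : ℕ | SquareFull m} => squareFull_rep m.2
    have hinj : Function.Injective r := by
      intro x y hxy
      apply Subtype.ext
      rw [hr x, hr y, hxy]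
    refine (h3.comp_injective hinj).congr fun m => ?_
    simp only [Function.comp]
    rw [hr m]
    push_cast
    rw [Real.mul_rpow (by positivity) (by positivity), ← Real.rpow_natCast, ← Real.rpow_natCast,
      ← Real.rpow_mul (by positivity), ← Real.rpow_mul (by positivity)]
    push_cast
    congr 2 <;> ring
  have h5 := (summable_subtype_iff_indicator (f := fun m : ℕ => (m:ℝ) ^ (-σ))).mp h4
  refine h5.congr fun m => ?_
  by_cases h : SquareFull m
  · rw [indicator_of_mem (show m ∈ {m : ℕ | SquareFull m} from h)]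
    simp [ind, h]
  · rw [indicator_of_notMem (show m ∉ {m : ℕ | SquareFull m} from h)]
    simp [ind, h]

lemma norm_term_ind {s : ℂ} (m : ℕ) : ‖LSeries.term ind s m‖ ≤ ‖ind m‖ * (m:ℝ) ^ (-s.re) := by
  rcases eq_or_ne m 0 with rfl | hm
  · simp [ind_zero]
  · rw [LSeries.term_of_ne_zero hm, norm_div, Complex.norm_natCast_cpow_of_pos
      (Nat.pos_of_ne_zero hm), Real.rpow_neg (by positivity), div_eq_mul_inv]

lemma LSeriesSummable_ind {s : ℂ} (hs : 1 / 2 < s.re) : LSeriesSummable ind s :=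
  Summable.of_norm_bounded (summable_squareFull hs) norm_term_ind

/-- The Euler product of the square-full integers. -/
lemma LSeries_ind_hasProd {s : ℂ} (hs : 1 / 2 < s.re) :
    HasProd (fun p : Nat.Primes => (1 - (p:ℂ) ^ (-s))⁻¹ - (p:ℂ) ^ (-s)) (LSeries ind s) := by
  have h1 : Summable (fun n => ‖LSeries.term ind s n‖) :=
    Summable.of_nonneg_of_le (fun _ => norm_nonneg _) norm_term_ind (summable_squareFull hs)
  have h2 : LSeries.term ind s 1 = 1 := by
    rw [LSeries.term_of_ne_zero one_ne_zero]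
    simp [ind, squareFull_one]
  have hmul : ∀ {m n : ℕ}, m.Coprime n →
      LSeries.term ind s (m * n) = LSeries.term ind s m * LSeries.term ind s n := by
    intro m n h
    rcases eq_or_ne m 0 with rfl | hm
    · simp
    rcases eq_or_ne n 0 with rfl | hn
    · simp
    rw [LSeries.term_of_ne_zero (mul_ne_zero hm hn), LSeries.term_of_ne_zero hm,
      LSeries.term_of_ne_zero hn, Nat.cast_mul, Complex.natCast_mul_natCast_cpow]
    have : ind (m * n) = ind m * ind n := by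
      unfold ind
      rw [show SquareFull (m * n) ↔ SquareFull m ∧ SquareFull n from squareFull_mul h]
      split_ifs <;> simp_all
    rw [this, mul_div_mul_comm]
  have h3 := EulerProduct.eulerProduct_hasProd (f := LSeries.term ind s) h2 hmul h1
    (LSeries.term_zero _ _)
  have h4 : (fun p : Nat.Primes => (1 - (p:ℂ) ^ (-s))⁻¹ - (p:ℂ) ^ (-s)) =
      fun p : Nat.Primes => ∑' e, LSeries.term ind s ((p:ℕ) ^ e) := by
    funext p
    set x : ℂ := (p:ℂ) ^ (-s) with hx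
    have hp := p.2
    have hx1 : ‖x‖ < 1 := by
      rw [hx, Complex.norm_natCast_cpow_of_pos hp.pos]
      simp only [neg_re]
      exact Real.rpow_lt_one_of_one_lt_of_neg (by exact_mod_cast hp.one_lt) (by linarith)
    have h5 := (hasSum_geometric_of_norm_lt_one hx1).sub (hasSum_ite_eq (1:ℕ) x)
    refine (h5.tsum_eq).symm.trans ?_
    refine tsum_congr fun e => ?_
    have hpe : ((p:ℕ) ^ e) ≠ 0 := pow_ne_zero _ hp.ne_zero
    rw [LSeries.term_of_ne_zero hpe]
    unfold ind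
    rw [squareFull_prime_pow hp]
    have h6 : (((p:ℕ) ^ e : ℕ) : ℂ) ^ s = ((p:ℂ) ^ s) ^ e := by
      push_cast
      rw [← Complex.natCast_cpow_natCast_mul, Complex.cpow_nat_mul]
    rw [h6]
    by_cases he : e = 1
    · simp [he]
    · simp only [he, if_false, sub_zero, ne_eq, not_false_eq_true, if_true]
      rw [hx, Complex.cpow_neg, inv_pow, one_div]
  rw [h4]
  exact h3

lemma LSeries_ind {s : ℂ} (hs : 1 / 2 < s.re) :
    LSeries ind s = riemannZeta (2 * s) * riemannZeta (3 * s) / riemannZeta (6 * s) := by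
  have e2 : 1 < (2 * s).re := by simp; linarith
  have e3 : 1 < (3 * s).re := by simp; linarith
  have e6 : 1 < (6 * s).re := by simp; linarith
  have h2 := riemannZeta_eulerProduct_hasProd e2
  have h3 := riemannZeta_eulerProduct_hasProd e3
  have h6 := riemannZeta_eulerProduct_hasProd e6
  have h := (LSeries_ind_hasProd hs).mul h6
  have h' := h2.mul h3
  have hfun : (fun p : Nat.Primes => ((1 - (p:ℂ) ^ (-s))⁻¹ - (p:ℂ) ^ (-s)) *
      (1 - (p:ℂ) ^ (-(6 * s)))⁻¹) = fun p : Nat.Primes => (1 - (p:ℂ) ^ (-(2 * s)))⁻¹ *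
      (1 - (p:ℂ) ^ (-(3 * s)))⁻¹ := by
    funext p
    have hp := p.2
    set x : ℂ := (p:ℂ) ^ (-s) with hx
    have hx1 : ‖x‖ < 1 := by
      rw [hx, Complex.norm_natCast_cpow_of_pos hp.pos]
      simp only [neg_re]
      exact Real.rpow_lt_one_of_one_lt_of_neg (by exact_mod_cast hp.one_lt) (by linarith)
    have hk : ∀ k : ℕ, k ≠ 0 → 1 - x ^ k ≠ 0 := by
      intro k hk h0
      have : x ^ k = 1 := by linear_combination -h0
      have h1 : ‖x‖ ^ k = 1 := by rw [← norm_pow, this, norm_one]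
      have h2 : ‖x‖ ^ k < 1 := pow_lt_one₀ (norm_nonneg _) hx1 hk
      linarith
    have e : ∀ k : ℕ, (p:ℂ) ^ (-((k:ℂ) * s)) = x ^ k := by
      intro k
      rw [hx, ← Complex.cpow_nat_mul]
      congr 1; ring
    have e2 := e 2
    have e3 := e 3
    have e6 := e 6
    push_cast at e2 e3 e6
    rw [e2, e3, e6]
    have k1 := hk 1 (by norm_num)
    have k2 := hk 2 (by norm_num)
    have k3 := hk 3 (by norm_num)
    have k6 := hk 6 (by norm_num)
    rw [pow_one] at k1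
    field_simp
    ring
  rw [hfun] at h
  have h7 := h.unique h'
  have h8 : riemannZeta (6 * s) ≠ 0 := riemannZeta_ne_zero_of_one_lt_re e6
  rw [eq_div_iff h8, h7]


lemma N2_eq_sum (x : ℝ) : ((N2 x : ℕ) : ℂ) = ∑ k ∈ Finset.Icc 1 ⌊x⌋₊, ind k := by
  classical
  have h1 : {m : ℕ | SquareFull m ∧ (m : ℝ) ≤ x} =
      ((Finset.Icc 1 ⌊x⌋₊).filter SquareFull : Finset ℕ) := by
    ext m
    simp only [mem_setOf_eq, Finset.coe_filter, Finset.mem_Icc]
    constructor
    · rintro ⟨h1, h2⟩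
      exact ⟨⟨Nat.one_le_iff_ne_zero.mpr h1.1, (Nat.le_floor_iff' h1.1).mpr h2⟩, h1⟩
    · rintro ⟨⟨-, h2⟩, h1⟩
      exact ⟨h1, (Nat.le_floor_iff' h1.1).mp h2⟩
  rw [N2, h1, Set.ncard_coe_finset, Finset.card_filter]
  push_cast
  refine Finset.sum_congr rfl fun k _ => ?_
  unfold ind
  split_ifs <;> simp

lemma measurable_N2 : Measurable (fun x : ℝ => ((N2 x : ℕ) : ℂ)) := by
  simp_rw [N2_eq_sum]
  exact (measurable_from_nat (f := fun n : ℕ => ∑ k ∈ Finset.Icc 1 n, ind k)).comp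
    Nat.measurable_floor

lemma sum_ind_le {r : ℝ} (hr : 1 / 2 < r) : ∃ A : ℝ, 0 < A ∧ ∀ n : ℕ,
    ∑ k ∈ Finset.Icc 1 n, ‖ind k‖ ≤ A * (n:ℝ) ^ r := by
  refine ⟨∑' m : ℕ, ‖ind m‖ * (m:ℝ) ^ (-r), ?_, fun n => ?_⟩
  · refine (summable_squareFull hr).tsum_pos (fun _ => by positivity) 1 ?_
    simp [ind, squareFull_one]
  · rw [mul_comm, ← tsum_mul_left]
    refine le_trans ?_ (((summable_squareFull hr).mul_left ((n:ℝ) ^ r)).sum_le_tsum
      (Finset.Icc 1 n) (fun _ _ => by positivity))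
    refine Finset.sum_le_sum fun k hk => ?_
    rw [Finset.mem_Icc] at hk
    have hk0 : (0:ℝ) < k := by exact_mod_cast hk.1
    have h1 : 1 ≤ (n:ℝ) ^ r * (k:ℝ) ^ (-r) := by
      rw [Real.rpow_neg hk0.le, ← div_eq_mul_inv, one_le_div (by positivity)]
      exact Real.rpow_le_rpow hk0.le (by exact_mod_cast hk.2) (by linarith)
    calc ‖ind k‖ = ‖ind k‖ * 1 := (mul_one _).symm
      _ ≤ ‖ind k‖ * ((n:ℝ) ^ r * (k:ℝ) ^ (-r)) := by gcongr
      _ = _ := by ring

lemma N2_le {r : ℝ} (hr : 1 / 2 < r) : ∃ A : ℝ, 0 < A ∧ ∀ x : ℝ, 0 ≤ x →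
    (N2 x : ℝ) ≤ A * x ^ r := by
  obtain ⟨A, hA, h⟩ := sum_ind_le hr
  refine ⟨A, hA, fun x hx => ?_⟩
  have h1 : (N2 x : ℝ) = ‖((N2 x : ℕ) : ℂ)‖ := by simp
  rw [h1, N2_eq_sum]
  calc ‖∑ k ∈ Finset.Icc 1 ⌊x⌋₊, ind k‖ ≤ ∑ k ∈ Finset.Icc 1 ⌊x⌋₊, ‖ind k‖ := norm_sum_le _ _
    _ ≤ A * (⌊x⌋₊:ℝ) ^ r := h _
    _ ≤ A * x ^ r := by
      gcongr
      exact Nat.floor_le hx

/-- The constant of the term `x^(1/2)`. -/
noncomputable def c₁ : ℂ := riemannZeta (3 / 2) / riemannZeta 3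

/-- The constant of the term `x^(1/3)`. -/
noncomputable def c₂ : ℂ := riemannZeta (2 / 3) / riemannZeta 2

/-- The error term `Δ(x)`. -/
noncomputable def Delta (x : ℝ) : ℝ :=
  N2 x - (riemannZeta (3 / 2) / riemannZeta 3).re * x ^ (1 / 2 : ℝ) -
    (riemannZeta (2 / 3) / riemannZeta 2).re * x ^ (1 / 3 : ℝ)

lemma zeta_real (x : ℝ) : ((riemannZeta x).re : ℂ) = riemannZeta x := by
  have h := riemannZeta_conj (x : ℂ)
  rw [Complex.conj_ofReal] at h
  exact (Complex.conj_eq_iff_re.mp h.symm)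

lemma c₁_real : ((c₁.re : ℝ) : ℂ) = c₁ := by
  have h1 := zeta_real (3 / 2)
  have h2 := zeta_real 3
  push_cast at h1 h2
  unfold c₁
  rw [← h1, ← h2, ← Complex.ofReal_div, Complex.ofReal_re]

lemma c₂_real : ((c₂.re : ℝ) : ℂ) = c₂ := by
  have h1 := zeta_real (2 / 3)
  have h2 := zeta_real 2
  push_cast at h1 h2
  unfold c₂
  rw [← h1, ← h2, ← Complex.ofReal_div, Complex.ofReal_re]

lemma Delta_cast {x : ℝ} (hx : 0 ≤ x) : ((Delta x : ℝ) : ℂ) =
    ((N2 x : ℕ) : ℂ) - c₁ * (x:ℂ) ^ (1 / 2 : ℂ) - c₂ * (x:ℂ) ^ (1 / 3 : ℂ) := by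
  have h1 := c₁_real
  have h2 := c₂_real
  unfold c₁ at h1
  unfold c₂ at h2
  unfold Delta c₁ c₂
  push_cast
  rw [h1, h2, Complex.ofReal_cpow hx, Complex.ofReal_cpow hx]
  push_cast
  rfl

lemma measurable_Delta : Measurable Delta := by
  unfold Delta
  have h : Measurable (fun x : ℝ => (N2 x : ℝ)) := by
    have : (fun x : ℝ => (N2 x : ℝ)) = fun x : ℝ => (((N2 x : ℕ) : ℂ)).re := by
      funext x; simp
    rw [this]
    exact Complex.measurable_re.comp measurable_N2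
  refine (h.sub ?_).sub ?_
  · exact (measurable_id.pow_const _).const_mul _
  · exact (measurable_id.pow_const _).const_mul _

lemma integrableOn_cpow {s : ℂ} (hs : 0 < s.re) :
    IntegrableOn (fun t : ℝ => (t:ℂ) ^ (-(s + 1))) (Ioi 1) :=
  integrableOn_Ioi_cpow_of_lt (by simp; linarith) zero_lt_one

lemma integral_cpow {s : ℂ} {a : ℂ} (hs : a.re < s.re) :
    ∫ t in Ioi (1:ℝ), (t:ℂ) ^ a * (t:ℂ) ^ (-(s + 1)) = 1 / (s - a) := by
  have h1 : ∀ t ∈ Ioi (1:ℝ), (t:ℂ) ^ a * (t:ℂ) ^ (-(s + 1)) = (t:ℂ) ^ (-((s - a) + 1)) := by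
    intro t ht
    have ht0 : (t:ℂ) ≠ 0 := by
      have : (0:ℝ) < t := lt_trans zero_lt_one ht
      exact_mod_cast this.ne'
    rw [← Complex.cpow_add _ _ ht0]
    congr 1; ring
  rw [setIntegral_congr_fun measurableSet_Ioi h1, integral_Ioi_cpow_of_lt (by simp; linarith)
    zero_lt_one]
  have h2 : s - a ≠ 0 := by
    intro h
    have := congrArg Complex.re h
    simp at this
    linarith
  have h3 : -((s - a) + 1) + 1 = -(s - a) := by ring
  rw [h3]
  simp only [ofReal_one, one_cpow]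
  rw [neg_div_neg_eq]

lemma integrableOn_cpow_mul {s : ℂ} {a : ℂ} (hs : a.re < s.re) :
    IntegrableOn (fun t : ℝ => (t:ℂ) ^ a * (t:ℂ) ^ (-(s + 1))) (Ioi 1) := by
  have h1 : IntegrableOn (fun t : ℝ => (t:ℂ) ^ (-((s - a) + 1))) (Ioi 1) :=
    integrableOn_cpow (by simp; linarith)
  refine h1.congr_fun ?_ measurableSet_Ioi
  intro t ht
  have ht0 : (t:ℂ) ≠ 0 := by
    have : (0:ℝ) < t := lt_trans zero_lt_one ht
    exact_mod_cast this.ne'
  simp only
  rw [← Complex.cpow_add _ _ ht0]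
  congr 1; ring

lemma integrableOn_N2 {s : ℂ} (hs : 1 / 2 < s.re) :
    IntegrableOn (fun t : ℝ => ((N2 t : ℕ) : ℂ) * (t:ℂ) ^ (-(s + 1))) (Ioi 1) := by
  set r := (1 / 2 + s.re) / 2 with hr
  obtain ⟨A, hA, h⟩ := N2_le (r := r) (by rw [hr]; linarith)
  have h1 : IntegrableOn (fun t : ℝ => A * t ^ (r - s.re - 1)) (Ioi 1) :=
    (integrableOn_Ioi_rpow_of_lt (by rw [hr]; linarith) zero_lt_one).const_mul _
  refine Integrable.mono' h1 ?_ ?_
  · refine AEStronglyMeasurable.mul measurable_N2.aestronglyMeasurable ?_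
    refine ContinuousOn.aestronglyMeasurable ?_ measurableSet_Ioi
    intro u hu
    have hu' : 0 < u := lt_trans zero_lt_one hu
    exact (continuousAt_ofReal_cpow_const _ _ (Or.inr hu'.ne')).continuousWithinAt
  · refine (ae_restrict_iff' measurableSet_Ioi).mpr (Eventually.of_forall fun u hu => ?_)
    have hu' : 0 < u := lt_trans zero_lt_one hu
    rw [norm_mul, Complex.norm_cpow_eq_rpow_re_of_pos hu', Complex.norm_natCast]
    calc (N2 u : ℝ) * u ^ (-(s + 1)).re ≤ (A * u ^ r) * u ^ (-(s + 1)).re := by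
          gcongr
          exact h u hu'.le
      _ = A * u ^ (r - s.re - 1) := by
          rw [mul_assoc, ← Real.rpow_add hu']
          congr 2
          simp; ring

/-- The Mellin transform of `Δ`. -/
lemma mellin_Delta {s : ℂ} (hs : 1 / 2 < s.re) :
    ∫ t in Ioi (1:ℝ), (Delta t : ℂ) * (t:ℂ) ^ (-(s + 1)) =
      riemannZeta (2 * s) * riemannZeta (3 * s) / riemannZeta (6 * s) / s -
        c₁ / (s - 1 / 2) - c₂ / (s - 1 / 3) := by
  have hs0 : s ≠ 0 := by
    rintro rfl; simp at hs; linarith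
  set r := (1 / 2 + s.re) / 2 with hr
  have hr1 : 1 / 2 < r := by rw [hr]; linarith
  obtain ⟨A, hA, h⟩ := sum_ind_le hr1
  have hO : (fun n : ℕ ↦ ∑ k ∈ Finset.Icc 1 n, ‖ind k‖) =O[atTop] fun n : ℕ ↦ (n : ℝ) ^ r := by
    refine Asymptotics.IsBigO.of_bound A (Eventually.of_forall fun n => ?_)
    rw [Real.norm_of_nonneg (Finset.sum_nonneg fun _ _ => norm_nonneg _),
      Real.norm_of_nonneg (by positivity)]
    exact h n
  have h1 := LSeries_eq_mul_integral' ind (r := r) (by linarith) (s := s) (by rw [hr]; linarith) hO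
  rw [LSeries_ind hs] at h1
  have hN : ∫ t in Ioi (1:ℝ), ((N2 t : ℕ) : ℂ) * (t:ℂ) ^ (-(s + 1)) =
      riemannZeta (2 * s) * riemannZeta (3 * s) / riemannZeta (6 * s) / s := by
    rw [h1, mul_div_assoc, mul_comm, div_mul_cancel₀ _ hs0]
    refine setIntegral_congr_fun measurableSet_Ioi fun t _ => ?_
    rw [N2_eq_sum]
  have hre2 : ((1:ℂ) / 2).re < s.re := by norm_num; linarith
  have hre3 : ((1:ℂ) / 3).re < s.re := by norm_num; linarith
  have e1 : ∫ t in Ioi (1:ℝ), (Delta t : ℂ) * (t:ℂ) ^ (-(s + 1)) =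
      ∫ t in Ioi (1:ℝ), (((N2 t : ℕ) : ℂ) * (t:ℂ) ^ (-(s + 1)) -
        c₁ * ((t:ℂ) ^ (1 / 2 : ℂ) * (t:ℂ) ^ (-(s + 1))) -
        c₂ * ((t:ℂ) ^ (1 / 3 : ℂ) * (t:ℂ) ^ (-(s + 1)))) := by
    refine setIntegral_congr_fun measurableSet_Ioi fun t ht => ?_
    have ht0 : (0:ℝ) ≤ t := (lt_trans zero_lt_one ht).le
    rw [Delta_cast ht0]
    ring
  have i1 := (integrableOn_cpow_mul hre2).const_mul c₁
  have i2 := (integrableOn_cpow_mul hre3).const_mul c₂
  have i12 : IntegrableOn (fun t : ℝ => ((N2 t : ℕ) : ℂ) * (t:ℂ) ^ (-(s + 1)) -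
      c₁ * ((t:ℂ) ^ (1 / 2 : ℂ) * (t:ℂ) ^ (-(s + 1)))) (Ioi 1) := (integrableOn_N2 hs).sub i1
  rw [e1, integral_sub i12 i2, integral_sub (integrableOn_N2 hs) i1,
    integral_const_mul, integral_const_mul, integral_cpow hre2, integral_cpow hre3, hN]
  ring

end Pool.Agent.SqFull
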