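import Pool.Agent.SqFull.ZetaLeft
import Pool.Agent.SqFull.PW
import Pool.Agent.SqFull.Gen

/-!
# Mean square of the error term for square-full integers, under RH
-/

open Complex Filter Topology Set MeasureTheory Pool.Agent.Hadamard

namespace Pool.Agent.SqFull

/-- Upper bound for `ζ` in `x0 ≤ Re s`. -/
lemma zeta_upper (hRH : RiemannHypothesis) {x0 ε : ℝ} (h0 : 0 < x0) (h1 : x0 < 1 / 2)
    (hε : 0 < ε) (hε1 : ε ≤ 1) :
    ∃ C : ℝ, 0 < C ∧ ∀ s : ℂ, x0 ≤ s.re → 1 ≤ |s.im| →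
      ‖riemannZeta s‖ ≤ C * (|s.im| + 2) ^ (1 / 2 - x0 + ε) := by
  set η := ε / 4 with hη
  have hη0 : 0 < η := by positivity
  have hη1 : η < 1 / 2 := by rw [hη]; linarith
  obtain ⟨C1, hC1, H1⟩ := norm_zeta_strip hRH hη0 hη1 (ε := ε / 2) (by positivity) (by linarith)
  obtain ⟨C2, hC2, H2⟩ := ZZ_bounds hRH hη0 (by linarith) (ε := ε) hε
  refine ⟨C1 + 3 * C2 + 2, by positivity, fun s hs ht => ?_⟩
  set T := |s.im| + 2 with hT
  have hT1 : 1 ≤ T := by linarith
  have hT0 : 0 < T := by linarith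
  have hTp : 1 ≤ T ^ (1 / 2 - x0 + ε) := Real.one_le_rpow hT1 (by linarith)
  rcases le_total s.re (1 / 2 + η) with h | h
  · have h3 := H1 s (by linarith) h
    calc ‖riemannZeta s‖ ≤ C1 * T ^ (1 / 2 * (1 - s.re / (1 / 2 + η)) + ε / 2) := h3
      _ ≤ C1 * T ^ (1 / 2 - x0 + ε) := by
          refine mul_le_mul_of_nonneg_left (Real.rpow_le_rpow_of_exponent_le hT1 ?_) hC1.le
          have hb : 0 < 1 / 2 + η := by linarith
          have h4 : x0 - ε / 2 ≤ 1 / 2 * (s.re / (1 / 2 + η)) := by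
            have h5 : x0 / (1 / 2 + η) ≤ s.re / (1 / 2 + η) := by gcongr
            have h6 : 2 * (x0 - ε / 2) ≤ x0 / (1 / 2 + η) := by
              rw [le_div_iff₀ hb]
              nlinarith
            linarith
          linarith
      _ ≤ (C1 + 3 * C2 + 2) * T ^ (1 / 2 - x0 + ε) := by
          gcongr
          linarith
  · rcases le_total s.re 2 with h2 | h2
    · have h3 := (H2 s h h2).1
      have hs1 : s ≠ 1 := by
        rintro rfl; simp at ht; linarith
      rw [ZZ_eq (by linarith) hs1, norm_mul] at h3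
      have h4 : T / 3 ≤ ‖s - 1‖ := by
        have := Complex.abs_im_le_norm (s - 1)
        simp only [sub_im, one_im, sub_zero] at this
        linarith
      have h5 : T / 3 * ‖riemannZeta s‖ ≤ T / 3 * (3 * C2 * T ^ ε) := by
        refine (mul_le_mul_of_nonneg_right h4 (norm_nonneg _)).trans (h3.trans (le_of_eq ?_))
        rw [Real.rpow_add hT0, Real.rpow_one]
        ring
      have h6 := le_of_mul_le_mul_left h5 (by positivity)
      calc ‖riemannZeta s‖ ≤ 3 * C2 * T ^ ε := h6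
        _ ≤ 3 * C2 * T ^ (1 / 2 - x0 + ε) :=
            mul_le_mul_of_nonneg_left (Real.rpow_le_rpow_of_exponent_le hT1 (by linarith))
              (by positivity)
        _ ≤ (C1 + 3 * C2 + 2) * T ^ (1 / 2 - x0 + ε) := by
            gcongr
            linarith
    · calc ‖riemannZeta s‖ ≤ 2 := (norm_zeta_bounds_two h2).2
        _ ≤ 2 * T ^ (1 / 2 - x0 + ε) := by linarith
        _ ≤ (C1 + 3 * C2 + 2) * T ^ (1 / 2 - x0 + ε) := by
            gcongr
            have : 0 < 3 * C2 := by positivity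
            linarith

/-- Upper bound for `1/ζ`. -/
lemma zeta_lower (hRH : RiemannHypothesis) {x1 ε : ℝ} (h1 : 1 / 2 < x1) (hε : 0 < ε) :
    ∃ C : ℝ, 0 < C ∧ ∀ s : ℂ, x1 ≤ s.re → 1 ≤ |s.im| →
      ‖riemannZeta s‖⁻¹ ≤ C * (|s.im| + 2) ^ ε := by
  set η := min (x1 - 1 / 2) 1 with hη
  have hη0 : 0 < η := lt_min (by linarith) one_pos
  obtain ⟨C2, hC2, H2⟩ := ZZ_bounds hRH hη0 (min_le_right _ _) (ε := ε) hε
  refine ⟨C2 + 4, by positivity, fun s hs ht => ?_⟩
  set T := |s.im| + 2 with hT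
  have hT1 : 1 ≤ T := by linarith
  have hT0 : 0 < T := by linarith
  have hTp : 1 ≤ T ^ ε := Real.one_le_rpow hT1 hε.le
  rcases le_total s.re 2 with h2 | h2
  · have h3 := (H2 s (by have := min_le_left (x1 - 1 / 2) 1; linarith) h2).2
    have hs1 : s ≠ 1 := by
      rintro rfl; simp at ht; linarith
    have hn : 0 < ‖s - 1‖ := norm_pos_iff.mpr (sub_ne_zero.mpr hs1)
    rw [ZZ_eq (by linarith) hs1, norm_mul, mul_inv] at h3
    have h4 : ‖s - 1‖ ≤ T := by
      refine (Complex.norm_le_abs_re_add_abs_im _).trans ?_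
      simp only [sub_re, one_re, sub_im, one_im, sub_zero]
      have : |s.re - 1| ≤ 1 := abs_le.mpr ⟨by linarith, by linarith⟩
      linarith
    calc ‖riemannZeta s‖⁻¹ = ‖s - 1‖ * (‖s - 1‖⁻¹ * ‖riemannZeta s‖⁻¹) := by
          field_simp
      _ ≤ T * (C2 * T ^ (ε - 1)) := by gcongr
      _ = C2 * T ^ ε := by
          rw [Real.rpow_sub hT0, Real.rpow_one]
          field_simp
      _ ≤ (C2 + 4) * T ^ ε := by
          gcongr
          linarith
  · have h3 := (norm_zeta_bounds_two h2).1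
    calc ‖riemannZeta s‖⁻¹ ≤ (1 / 4)⁻¹ := inv_anti₀ (by norm_num) h3
      _ = 4 * 1 := by norm_num
      _ ≤ (C2 + 4) * T ^ ε := by
          gcongr
          linarith

/-- The numerator of the generating function. -/
noncomputable def PP (s : ℂ) : ℂ := ZZ (2 * s) * ZZ (3 * s) * (6 * s - 1) / (s * ZZ (6 * s))

/-- The transform of `Δ`. -/
noncomputable def KK (s : ℂ) : ℂ := dslope PP (1 / 2) s - dslope PP (1 / 3) s

lemma PP_differentiableAt (hRH : RiemannHypothesis) {s : ℂ} (hs : 1 / 12 < s.re) :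
    DifferentiableAt ℂ PP s := by
  have h0 : s ≠ 0 := by
    rintro rfl; simp at hs; linarith
  have e2 : 0 < (2 * s).re := by simp; linarith
  have e3 : 0 < (3 * s).re := by simp; linarith
  have e6 : 1 / 2 < (6 * s).re := by simp; linarith
  have h2 : DifferentiableAt ℂ (fun s => ZZ (2 * s)) s :=
    (ZZ_differentiableAt e2).comp s (by fun_prop : DifferentiableAt ℂ (fun s => 2 * s) s)
  have h3 : DifferentiableAt ℂ (fun s => ZZ (3 * s)) s :=
    (ZZ_differentiableAt e3).comp s (by fun_prop : DifferentiableAt ℂ (fun s => 3 * s) s)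
  have h6 : DifferentiableAt ℂ (fun s => ZZ (6 * s)) s :=
    (ZZ_differentiableAt (by linarith)).comp s (by fun_prop : DifferentiableAt ℂ (fun s => 6 * s) s)
  unfold PP
  exact DifferentiableAt.div ((h2.mul h3).mul (by fun_prop)) (DifferentiableAt.mul (by fun_prop) h6)
    (mul_ne_zero h0 (ZZ_ne_zero hRH e6))

lemma KK_differentiableAt (hRH : RiemannHypothesis) {s : ℂ} (hs : 1 / 12 < s.re) :
    DifferentiableAt ℂ KK s := by
  have hO : IsOpen {z : ℂ | 1 / 12 < z.re} := isOpen_lt continuous_const Complex.continuous_re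
  have hP : DifferentiableOn ℂ PP {z : ℂ | 1 / 12 < z.re} := fun z hz =>
    (PP_differentiableAt hRH hz).differentiableWithinAt
  have h1 : DifferentiableOn ℂ (dslope PP (1 / 2)) {z : ℂ | 1 / 12 < z.re} :=
    (Complex.differentiableOn_dslope (hO.mem_nhds (by norm_num))).mpr hP
  have h2 : DifferentiableOn ℂ (dslope PP (1 / 3)) {z : ℂ | 1 / 12 < z.re} :=
    (Complex.differentiableOn_dslope (hO.mem_nhds (by norm_num))).mpr hP
  exact (h1.sub h2).differentiableAt (hO.mem_nhds hs)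

lemma ZZ_one : ZZ 1 = 1 := by
  unfold ZZ
  rw [xiF_one, Gammaℝ_one]
  simp

lemma PP_half : PP (1 / 2) = c₁ := by
  unfold PP c₁
  have e1 : (2:ℂ) * (1 / 2) = 1 := by norm_num
  have e2 : (3:ℂ) * (1 / 2) = 3 / 2 := by norm_num
  have e3 : (6:ℂ) * (1 / 2) = 3 := by norm_num
  rw [e1, e2, e3, ZZ_one, ZZ_eq (s := 3 / 2) (by norm_num) (by norm_num),
    ZZ_eq (s := 3) (by norm_num) (by norm_num)]
  have h3 : riemannZeta 3 ≠ 0 := riemannZeta_ne_zero_of_one_lt_re (by norm_num)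
  field_simp
  ring

lemma PP_third : PP (1 / 3) = - c₂ := by
  unfold PP c₂
  have e1 : (2:ℂ) * (1 / 3) = 2 / 3 := by norm_num
  have e2 : (3:ℂ) * (1 / 3) = 1 := by norm_num
  have e3 : (6:ℂ) * (1 / 3) = 2 := by norm_num
  rw [e1, e2, e3, ZZ_one, ZZ_eq (s := 2 / 3) (by norm_num) (by norm_num),
    ZZ_eq (s := 2) (by norm_num) (by norm_num)]
  have h3 : riemannZeta 2 ≠ 0 := riemannZeta_ne_zero_of_one_lt_re (by norm_num)
  field_simp
  ring

lemma KK_eq (hRH : RiemannHypothesis) {s : ℂ} (hs : 1 / 12 < s.re) (h2 : s ≠ 1 / 2)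
    (h3 : s ≠ 1 / 3) (h6 : s ≠ 1 / 6) :
    KK s = riemannZeta (2 * s) * riemannZeta (3 * s) / riemannZeta (6 * s) / s -
        c₁ / (s - 1 / 2) - c₂ / (s - 1 / 3) := by
  have h0 : s ≠ 0 := by
    rintro rfl; simp at hs; linarith
  have a2 : s - 1 / 2 ≠ 0 := sub_ne_zero.mpr h2
  have a3 : s - 1 / 3 ≠ 0 := sub_ne_zero.mpr h3
  have a6 : 6 * s - 1 ≠ 0 := by
    intro h
    apply h6
    linear_combination h / 6
  have n2 : 2 * s ≠ 1 := fun h => h2 (by linear_combination h / 2)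
  have n3 : 3 * s ≠ 1 := fun h => h3 (by linear_combination h / 3)
  have n6 : 6 * s ≠ 1 := fun h => h6 (by linear_combination h / 6)
  have hz6 : ZZ (6 * s) ≠ 0 := ZZ_ne_zero hRH (by simp; linarith)
  have hP : PP s = (2 * s - 1) * (3 * s - 1) *
      (riemannZeta (2 * s) * riemannZeta (3 * s) / riemannZeta (6 * s) / s) := by
    unfold PP
    rw [ZZ_eq (s := 6 * s) (by simp; linarith) n6] at hz6 ⊢
    rw [ZZ_eq (s := 2 * s) (by simp; linarith) n2, ZZ_eq (s := 3 * s) (by simp; linarith) n3]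
    have hz : riemannZeta (6 * s) ≠ 0 := right_ne_zero_of_mul hz6
    generalize riemannZeta (6 * s) = z6 at hz ⊢
    generalize riemannZeta (2 * s) = z2
    generalize riemannZeta (3 * s) = z3
    generalize 6 * s - 1 = b6 at a6 ⊢
    field_simp
  have key : ∀ (u v A c1 c2 : ℂ), u ≠ 0 → v ≠ 0 → v = u + 1 / 6 →
      (2 * u * (3 * v) * A - c1) / u - (2 * u * (3 * v) * A - -c2) / v = A - c1 / u - c2 / v := by
    intro u v A c1 c2 hu hv huv
    field_simp
    rw [huv]
    ring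
  unfold KK
  rw [dslope_of_ne _ h2, dslope_of_ne _ h3, slope_def_field, slope_def_field, PP_half, PP_third, hP,
    ← key (s - 1 / 2) (s - 1 / 3) _ c₁ c₂ a2 a3 (by ring)]
  have e1 : 2 * s - 1 = 2 * (s - 1 / 2) := by ring
  have e2 : 3 * s - 1 = 3 * (s - 1 / 3) := by ring
  rw [e1, e2]


/-- The bound for the transform of `Δ` in the strip. -/
lemma KK_bound (hRH : RiemannHypothesis) {σ c : ℝ} (h1 : 1 / 10 < σ) (h2 : σ < 1 / 6) :
    ∃ C κ : ℝ, 0 < κ ∧ ∀ s : ℂ, σ ≤ s.re → s.re ≤ c →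
      ‖KK s‖ ≤ C * (|s.im| + 2) ^ (-(1 / 2) - κ) := by
  set ε := (5 * σ - 1 / 2) / 6 with hε
  have hε0 : 0 < ε := by rw [hε]; linarith
  have hε1 : ε ≤ 1 / 18 := by rw [hε]; linarith
  set κ := 3 * ε with hκ
  have hκσ : κ = 5 * σ - 1 / 2 - 3 * ε := by rw [hκ, hε]; ring
  obtain ⟨C2, hC2, H2⟩ := zeta_upper hRH (x0 := 2 * σ) (ε := ε) (by linarith) (by linarith) hε0
    (by linarith)
  obtain ⟨C3, hC3, H3⟩ := zeta_upper hRH (x0 := 3 * σ) (ε := ε) (by linarith) (by linarith) hε0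
    (by linarith)
  obtain ⟨C6, hC6, H6⟩ := zeta_lower hRH (x1 := 6 * σ) (ε := ε) (by linarith) hε0
  obtain ⟨M, hM⟩ := ((isCompact_Icc (a := σ) (b := c)).reProdIm
    (isCompact_Icc (a := (-1:ℝ)) (b := 1))).exists_bound_of_continuousOn (f := KK) (fun z hz =>
      (KK_differentiableAt hRH (by
        have h : σ ≤ z.re := hz.1.1
        linarith)).continuousAt.continuousWithinAt)
  set A := C2 * 2 ^ (1 / 2 - 2 * σ + ε) * (C3 * 3 ^ (1 / 2 - 3 * σ + ε)) * (C6 * 6 ^ ε) * 3 +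
    3 * (‖c₁‖ + ‖c₂‖) with hA
  have hA0 : 0 ≤ A := by positivity
  refine ⟨A + 3 * |M|, κ, by positivity, fun s hs hsc => ?_⟩
  set T := |s.im| + 2 with hT
  have hT2 : 2 ≤ T := by rw [hT]; linarith [abs_nonneg s.im]
  have hT0 : 0 < T := by linarith
  rcases le_total |s.im| 1 with ht | ht
  · have h3 := hM s ⟨⟨hs, hsc⟩, ⟨(abs_le.mp ht).1, (abs_le.mp ht).2⟩⟩
    have h4 : 1 ≤ 3 * T ^ (-(1 / 2) - κ) := by
      have h5 : T ^ (-1 : ℝ) ≤ T ^ (-(1 / 2) - κ) :=
        Real.rpow_le_rpow_of_exponent_le (by linarith) (by rw [hκ]; linarith)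
      have h6 : (1:ℝ) / 3 ≤ T ^ (-1 : ℝ) := by
        rw [Real.rpow_neg_one, ← one_div]
        exact one_div_le_one_div_of_le hT0 (by rw [hT]; linarith)
      linarith
    calc ‖KK s‖ ≤ M := h3
      _ ≤ |M| * 1 := by rw [mul_one]; exact le_abs_self M
      _ ≤ |M| * (3 * T ^ (-(1 / 2) - κ)) := by gcongr
      _ = 3 * |M| * T ^ (-(1 / 2) - κ) := by ring
      _ ≤ (A + 3 * |M|) * T ^ (-(1 / 2) - κ) := by
        gcongr
        linarith
  · have him : s.im ≠ 0 := by
      intro h; rw [h] at ht; simp at ht; linarith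
    have hne : ∀ x : ℝ, s ≠ (x : ℂ) := by
      rintro x rfl
      exact him (by simp)
    have n2 : s ≠ 1 / 2 := by have := hne (1 / 2); push_cast at this; exact this
    have n3 : s ≠ 1 / 3 := by have := hne (1 / 3); push_cast at this; exact this
    have n6 : s ≠ 1 / 6 := by have := hne (1 / 6); push_cast at this; exact this
    rw [KK_eq hRH (by linarith) n2 n3 n6]
    have hnorm : ∀ x : ℝ, T / 3 ≤ ‖s - x‖ := by
      intro x
      have := Complex.abs_im_le_norm (s - x)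
      simp only [sub_im, ofReal_im, sub_zero] at this
      linarith
    have hn0 : T / 3 ≤ ‖s‖ := by simpa using hnorm 0
    have hn2 : T / 3 ≤ ‖s - 1 / 2‖ := by have := hnorm (1 / 2); push_cast at this; exact this
    have hn3 : T / 3 ≤ ‖s - 1 / 3‖ := by have := hnorm (1 / 3); push_cast at this; exact this
    have b2 := H2 (2 * s) (by simp; linarith) (by
      have : |(2 * s).im| = 2 * |s.im| := by simp [abs_mul]
      rw [this]; linarith)
    have b3 := H3 (3 * s) (by simp; linarith) (by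
      have : |(3 * s).im| = 3 * |s.im| := by simp [abs_mul]
      rw [this]; linarith)
    have b6 := H6 (6 * s) (by simp; linarith) (by
      have : |(6 * s).im| = 6 * |s.im| := by simp [abs_mul]
      rw [this]; linarith)
    have r2 : (|(2 * s).im| + 2) ^ (1 / 2 - 2 * σ + ε) ≤
        2 ^ (1 / 2 - 2 * σ + ε) * T ^ (1 / 2 - 2 * σ + ε) := by
      have : |(2 * s).im| = 2 * |s.im| := by simp [abs_mul]
      rw [this, ← Real.mul_rpow (by norm_num) hT0.le]
      exact Real.rpow_le_rpow (by positivity) (by rw [hT]; linarith) (by linarith)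
    have r3 : (|(3 * s).im| + 2) ^ (1 / 2 - 3 * σ + ε) ≤
        3 ^ (1 / 2 - 3 * σ + ε) * T ^ (1 / 2 - 3 * σ + ε) := by
      have : |(3 * s).im| = 3 * |s.im| := by simp [abs_mul]
      rw [this, ← Real.mul_rpow (by norm_num) hT0.le]
      exact Real.rpow_le_rpow (by positivity) (by rw [hT]; linarith) (by linarith)
    have r6 : (|(6 * s).im| + 2) ^ ε ≤ 6 ^ ε * T ^ ε := by
      have : |(6 * s).im| = 6 * |s.im| := by simp [abs_mul]
      rw [this, ← Real.mul_rpow (by norm_num) hT0.le]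
      exact Real.rpow_le_rpow (by positivity) (by rw [hT]; linarith) hε0.le
    have m1 : ‖riemannZeta (2 * s) * riemannZeta (3 * s) / riemannZeta (6 * s) / s‖ ≤
        (C2 * 2 ^ (1 / 2 - 2 * σ + ε) * (C3 * 3 ^ (1 / 2 - 3 * σ + ε)) * (C6 * 6 ^ ε) * 3) *
          T ^ (-(1 / 2) - κ) := by
      rw [norm_div, norm_div, norm_mul, div_eq_mul_inv, div_eq_mul_inv]
      have hinv : ‖s‖⁻¹ ≤ 3 * T ^ (-1 : ℝ) := by
        rw [Real.rpow_neg_one, ← div_eq_mul_inv]
        have : (3:ℝ) / T = (T / 3)⁻¹ := by field_simp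
        rw [this]
        exact inv_anti₀ (by positivity) hn0
      calc ‖riemannZeta (2 * s)‖ * ‖riemannZeta (3 * s)‖ * ‖riemannZeta (6 * s)‖⁻¹ * ‖s‖⁻¹
          ≤ (C2 * (2 ^ (1 / 2 - 2 * σ + ε) * T ^ (1 / 2 - 2 * σ + ε))) *
            (C3 * (3 ^ (1 / 2 - 3 * σ + ε) * T ^ (1 / 2 - 3 * σ + ε))) *
            (C6 * (6 ^ ε * T ^ ε)) * (3 * T ^ (-1 : ℝ)) := by
            refine mul_le_mul (mul_le_mul (mul_le_mul (b2.trans ?_) (b3.trans ?_) (norm_nonneg _)
              (by positivity)) (b6.trans ?_) (by positivity) (by positivity)) hinv (by positivity)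
              (by positivity)
            · exact mul_le_mul_of_nonneg_left r2 hC2.le
            · exact mul_le_mul_of_nonneg_left r3 hC3.le
            · exact mul_le_mul_of_nonneg_left r6 hC6.le
        _ = (C2 * 2 ^ (1 / 2 - 2 * σ + ε) * (C3 * 3 ^ (1 / 2 - 3 * σ + ε)) * (C6 * 6 ^ ε) * 3) *
          (T ^ (1 / 2 - 2 * σ + ε) * T ^ (1 / 2 - 3 * σ + ε) * T ^ ε * T ^ (-1 : ℝ)) := by ring
        _ = _ := by
            rw [← Real.rpow_add hT0, ← Real.rpow_add hT0, ← Real.rpow_add hT0]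
            congr 2
            rw [hκσ]; ring
    have hTm : T ^ (-1 : ℝ) ≤ T ^ (-(1 / 2) - κ) :=
      Real.rpow_le_rpow_of_exponent_le (by linarith) (by rw [hκ]; linarith)
    have hpole : ∀ (a z : ℂ), T / 3 ≤ ‖z‖ → ‖a / z‖ ≤ 3 * ‖a‖ * T ^ (-(1 / 2) - κ) := by
      intro a z hz
      rw [norm_div]
      calc ‖a‖ / ‖z‖ ≤ ‖a‖ / (T / 3) := by gcongr
        _ = 3 * ‖a‖ * T ^ (-1 : ℝ) := by
            rw [Real.rpow_neg_one]
            field_simp
        _ ≤ _ := by gcongr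
    have m2 := hpole c₁ _ hn2
    have m3 := hpole c₂ _ hn3
    calc ‖riemannZeta (2 * s) * riemannZeta (3 * s) / riemannZeta (6 * s) / s -
          c₁ / (s - 1 / 2) - c₂ / (s - 1 / 3)‖
        ≤ ‖riemannZeta (2 * s) * riemannZeta (3 * s) / riemannZeta (6 * s) / s‖ +
          ‖c₁ / (s - 1 / 2)‖ + ‖c₂ / (s - 1 / 3)‖ :=
          (norm_sub_le _ _).trans (add_le_add_left (norm_sub_le _ _) _)
      _ ≤ (C2 * 2 ^ (1 / 2 - 2 * σ + ε) * (C3 * 3 ^ (1 / 2 - 3 * σ + ε)) * (C6 * 6 ^ ε) * 3) *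
          T ^ (-(1 / 2) - κ) + 3 * ‖c₁‖ * T ^ (-(1 / 2) - κ) + 3 * ‖c₂‖ * T ^ (-(1 / 2) - κ) :=
          add_le_add (add_le_add m1 m2) m3
      _ = A * T ^ (-(1 / 2) - κ) := by rw [hA]; ring
      _ ≤ (A + 3 * |M|) * T ^ (-(1 / 2) - κ) := by
          gcongr
          linarith [abs_nonneg M]


lemma image_exp_Ioi : Real.exp '' Ioi 0 = Ioi 1 := by
  ext x
  constructor
  · rintro ⟨v, hv, rfl⟩
    exact Real.one_lt_exp_iff.mpr hv
  · intro hx
    have hx0 : (0:ℝ) < x := lt_trans zero_lt_one hx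
    exact ⟨Real.log x, Real.log_pos hx, Real.exp_log hx0⟩

/-- The function in logarithmic variables. -/
noncomputable def ww (v : ℝ) : ℂ :=
  indicator (Ioi (0:ℝ)) (fun v => ((Delta (Real.exp v) * Real.exp (-(3 / 5) * v) : ℝ) : ℂ)) v

lemma Delta_le : ∃ B : ℝ, 0 < B ∧ ∀ x : ℝ, 1 ≤ x → |Delta x| ≤ B * x ^ (11 / 20 : ℝ) := by
  obtain ⟨A, hA, h⟩ := N2_le (r := 11 / 20) (by norm_num)
  refine ⟨A + |c₁.re| + |c₂.re|, by positivity, fun x hx => ?_⟩
  have h0 : 0 ≤ x := by linarith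
  have e1 : x ^ (1 / 2 : ℝ) ≤ x ^ (11 / 20 : ℝ) :=
    Real.rpow_le_rpow_of_exponent_le hx (by norm_num)
  have e2 : x ^ (1 / 3 : ℝ) ≤ x ^ (11 / 20 : ℝ) :=
    Real.rpow_le_rpow_of_exponent_le hx (by norm_num)
  have h1 : Delta x = N2 x - c₁.re * x ^ (1 / 2 : ℝ) - c₂.re * x ^ (1 / 3 : ℝ) := rfl
  rw [h1]
  calc |(N2 x : ℝ) - c₁.re * x ^ (1 / 2 : ℝ) - c₂.re * x ^ (1 / 3 : ℝ)|
      ≤ |(N2 x : ℝ) - c₁.re * x ^ (1 / 2 : ℝ)| + |c₂.re * x ^ (1 / 3 : ℝ)| := abs_sub _ _
    _ ≤ |(N2 x : ℝ)| + |c₁.re * x ^ (1 / 2 : ℝ)| + |c₂.re * x ^ (1 / 3 : ℝ)| := by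
        gcongr
        exact abs_sub _ _
    _ = (N2 x : ℝ) + |c₁.re| * x ^ (1 / 2 : ℝ) + |c₂.re| * x ^ (1 / 3 : ℝ) := by
        rw [abs_mul, abs_mul, abs_of_nonneg (Nat.cast_nonneg (N2 x)),
          abs_of_nonneg (Real.rpow_nonneg h0 _), abs_of_nonneg (Real.rpow_nonneg h0 _)]
    _ ≤ A * x ^ (11 / 20 : ℝ) + |c₁.re| * x ^ (11 / 20 : ℝ) + |c₂.re| * x ^ (11 / 20 : ℝ) := by
        gcongr
        exact h x h0
    _ = _ := by ring

lemma measurable_ww : Measurable ww := by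
  unfold ww
  refine Measurable.indicator ?_ measurableSet_Ioi
  refine Complex.measurable_ofReal.comp ?_
  refine (measurable_Delta.comp Real.measurable_exp).mul ?_
  exact Real.measurable_exp.comp (measurable_const.mul measurable_id)

lemma integrable_ww : Integrable ww := by
  obtain ⟨B, hB, h⟩ := Delta_le
  have h1 : Integrable (indicator (Ioi (0:ℝ)) (fun v : ℝ => B * Real.exp (-(1 / 20) * v))) := by
    rw [integrable_indicator_iff measurableSet_Ioi]
    exact (exp_neg_integrableOn_Ioi 0 (by norm_num)).const_mul B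
  refine h1.mono' measurable_ww.aestronglyMeasurable (Eventually.of_forall fun v => ?_)
  unfold ww
  by_cases hv : v ∈ Ioi (0:ℝ)
  · rw [indicator_of_mem hv, indicator_of_mem hv, Complex.norm_real, Real.norm_eq_abs, abs_mul,
      abs_of_pos (Real.exp_pos _)]
    have h2 := h (Real.exp v) (Real.one_le_exp (le_of_lt hv))
    calc |Delta (Real.exp v)| * Real.exp (-(3 / 5) * v)
        ≤ (B * Real.exp v ^ (11 / 20 : ℝ)) * Real.exp (-(3 / 5) * v) := by gcongr
      _ = B * Real.exp (-(1 / 20) * v) := by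
          rw [← Real.exp_mul, mul_assoc, ← Real.exp_add]
          congr 2
          ring
  · rw [indicator_of_notMem hv, indicator_of_notMem hv]
    simp

lemma ww_transform (t : ℝ) :
    ∫ v : ℝ, cexp (-(t * v) * I) * ww v =
      ∫ x in Ioi (1:ℝ), (Delta x : ℂ) * (x:ℂ) ^ (-(((3 / 5 : ℝ) + t * I : ℂ) + 1)) := by
  have h1 : ∫ v : ℝ, cexp (-(t * v) * I) * ww v = ∫ v in Ioi (0:ℝ), cexp (-(t * v) * I) *
      ((Delta (Real.exp v) * Real.exp (-(3 / 5) * v) : ℝ) : ℂ) := by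
    rw [← integral_indicator measurableSet_Ioi]
    refine integral_congr_ae (Eventually.of_forall fun v => ?_)
    unfold ww
    by_cases hv : v ∈ Ioi (0:ℝ)
    · simp only [indicator_of_mem hv]
    · simp only [indicator_of_notMem hv, mul_zero]
  rw [h1, ← image_exp_Ioi, integral_image_eq_integral_abs_deriv_smul (f' := Real.exp)
    measurableSet_Ioi (fun x _ => (Real.hasDerivAt_exp x).hasDerivWithinAt)
    Real.exp_injective.injOn]
  refine setIntegral_congr_fun measurableSet_Ioi fun v _ => ?_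
  have hne : ((Real.exp v : ℝ) : ℂ) ≠ 0 := by exact_mod_cast (Real.exp_pos v).ne'
  have e1 : ((Real.exp v : ℝ) : ℂ) ^ (-(((3 / 5 : ℝ) + t * I : ℂ) + 1)) =
      cexp (v * (-(((3 / 5 : ℝ) + t * I : ℂ) + 1))) := by
    rw [Complex.cpow_def_of_ne_zero hne, ← Complex.ofReal_log (Real.exp_pos v).le, Real.log_exp]
  simp only [abs_of_pos (Real.exp_pos v), Complex.real_smul]
  rw [e1]
  push_cast
  have e2 : cexp (v:ℂ) * ((Delta (Real.exp v) : ℂ) * cexp (v * (-((3 / 5 + t * I : ℂ) + 1)))) =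
      (Delta (Real.exp v) : ℂ) * (cexp (v:ℂ) * cexp (v * (-((3 / 5 + t * I : ℂ) + 1)))) := by ring
  rw [e2, ← Complex.exp_add]
  have e3 : cexp (-(t * v) * I) * ((Delta (Real.exp v) : ℂ) * cexp (-(3 / 5) * v)) =
      (Delta (Real.exp v) : ℂ) * (cexp (-(t * v) * I) * cexp (-(3 / 5) * v)) := by ring
  rw [e3, ← Complex.exp_add]
  congr 2
  ring

lemma eventually_floor_eq {x : ℝ} (hx : 0 ≤ x) (hn : ∀ n : ℕ, x ≠ n) :
    ∀ᶠ y in 𝓝 x, ⌊y⌋₊ = ⌊x⌋₊ := by
  have h1 : (⌊x⌋₊ : ℝ) < x := lt_of_le_of_ne (Nat.floor_le hx) (hn _).symm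
  have h2 : x < ⌊x⌋₊ + 1 := Nat.lt_floor_add_one x
  filter_upwards [Ioo_mem_nhds h1 h2] with y hy
  rw [Nat.floor_eq_iff ((Nat.cast_nonneg _).trans hy.1.le)]
  exact ⟨hy.1.le, hy.2⟩

lemma ww_continuousAt : ∀ᵐ v : ℝ, ContinuousAt ww v := by
  have hc : (range (fun n : ℕ => Real.log n)).Countable := countable_range _
  have hz := hc.measure_zero (volume : Measure ℝ)
  rw [ae_iff]
  refine measure_mono_null ?_ hz
  intro v hv
  by_contra hnot
  apply hv
  have hne : ∀ n : ℕ, v ≠ Real.log n := fun n h => hnot ⟨n, h.symm⟩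
  have h0 : v ≠ 0 := by simpa using hne 0
  rcases lt_or_gt_of_ne h0 with h | h
  · have h1 : ww =ᶠ[𝓝 v] fun _ => 0 := by
      filter_upwards [Iio_mem_nhds h] with y hy
      unfold ww
      exact indicator_of_notMem (fun h => lt_asymm h hy) _
    exact (continuousAt_congr h1).mpr continuousAt_const
  · have h2 : ∀ᶠ y in 𝓝 v, ⌊Real.exp y⌋₊ = ⌊Real.exp v⌋₊ := by
      refine Real.continuous_exp.continuousAt.eventually (eventually_floor_eq (Real.exp_pos v).le ?_)
      intro n hn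
      apply hne n
      rw [← hn, Real.log_exp]
    have h1 : ww =ᶠ[𝓝 v] fun y => (((N2 (Real.exp v) : ℝ) - c₁.re * Real.exp y ^ (1 / 2 : ℝ) -
        c₂.re * Real.exp y ^ (1 / 3 : ℝ)) * Real.exp (-(3 / 5) * y) : ℝ) := by
      filter_upwards [Ioi_mem_nhds h, h2] with y hy hf
      unfold ww
      rw [indicator_of_mem hy]
      have h3 : N2 (Real.exp y) = N2 (Real.exp v) := by
        have := N2_eq_sum (Real.exp y)
        rw [hf, ← N2_eq_sum] at this
        exact_mod_cast this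
      unfold Delta c₁ c₂
      rw [h3]
    refine (continuousAt_congr h1).mpr ?_
    refine Complex.continuous_ofReal.continuousAt.comp ?_
    refine ContinuousAt.mul (ContinuousAt.sub (ContinuousAt.sub continuousAt_const ?_) ?_)
      (by fun_prop)
    · exact continuousAt_const.mul (Real.continuous_exp.continuousAt.rpow_const
        (Or.inl (Real.exp_pos _).ne'))
    · exact continuousAt_const.mul (Real.continuous_exp.continuousAt.rpow_const
        (Or.inl (Real.exp_pos _).ne'))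

/-- The weighted mean square of `Δ`. -/
theorem integrableOn_Delta (hRH : RiemannHypothesis) {σ : ℝ} (h1 : 1 / 10 < σ) (h2 : σ < 1 / 6) :
    IntegrableOn (fun x : ℝ => Delta x ^ 2 * x ^ (-(2 * σ + 1))) (Ioi 1) := by
  obtain ⟨C, κ, hκ, hb⟩ := KK_bound hRH (c := 3 / 5) h1 h2
  have hmain := sq_integrable_of_strip (w := ww) (K := KK) (σ := σ) (c := 3 / 5) (C := C) (κ := κ)
    (by linarith) hκ integrable_ww ww_continuousAt (fun t => by
      rw [ww_transform, mellin_Delta (by simp; norm_num)]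
      refine KK_eq hRH (by simp; norm_num) ?_ ?_ ?_
      · intro h
        have := congrArg Complex.re h
        norm_num at this
      · intro h
        have := congrArg Complex.re h
        norm_num at this
      · intro h
        have := congrArg Complex.re h
        norm_num at this)
    (fun s hs _ => KK_differentiableAt hRH (by linarith)) hb
  rw [← image_exp_Ioi, integrableOn_image_iff_integrableOn_abs_deriv_smul (f' := Real.exp)
    measurableSet_Ioi (fun x _ => (Real.hasDerivAt_exp x).hasDerivWithinAt)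
    Real.exp_injective.injOn]
  refine (hmain.integrableOn (s := Ioi 0)).congr_fun ?_ measurableSet_Ioi
  intro v hv
  simp only [abs_of_pos (Real.exp_pos v), smul_eq_mul]
  unfold ww
  rw [indicator_of_mem hv, Complex.norm_real, Real.norm_eq_abs, sq_abs, mul_pow, ← Real.exp_mul]
  have e1 : Real.exp (-(3 / 5) * v) ^ 2 * Real.exp (2 * (3 / 5 - σ) * v) =
      Real.exp v * Real.exp (v * -(2 * σ + 1)) := by
    rw [sq, ← Real.exp_add, ← Real.exp_add, ← Real.exp_add]
    congr 1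
    ring
  calc Delta (Real.exp v) ^ 2 * Real.exp (-(3 / 5) * v) ^ 2 * Real.exp (2 * (3 / 5 - σ) * v)
      = Delta (Real.exp v) ^ 2 *
        (Real.exp (-(3 / 5) * v) ^ 2 * Real.exp (2 * (3 / 5 - σ) * v)) := by ring
    _ = _ := by rw [e1]; ring

end Pool.Agent.SqFull
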