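import Pool.Agent.Lib.Hadamard.RvMSums
import Mathlib.Analysis.Complex.Hadamard

/-!
# Bounds for `ζ` and `1/ζ` to the right of the critical line, under the Riemann hypothesis
-/

open Complex Filter Topology Set Pool.Agent.Hadamard

namespace Pool.Agent.SqFull

lemma ntz_re (hRH : RiemannHypothesis) {ρ : ℂ} (h : ρ ∈ ntz) : ρ.re = 1 / 2 := by
  refine hRH ρ h.1 ?_ ?_
  · rintro ⟨n, hn⟩
    have h1 := h.2.1
    rw [hn] at h1
    simp at h1
    have : (0:ℝ) ≤ n := by positivity
    linarith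
  · rintro rfl
    have := h.2.2
    simp at this

/-- `Z(s) = (s-1) ζ(s)`, without the junk value at `s = 1`. -/
noncomputable def ZZ (s : ℂ) : ℂ := xiF s / (s * Gammaℝ s)

lemma ZZ_eq {s : ℂ} (hs : 0 < s.re) (h1 : s ≠ 1) : ZZ s = (s - 1) * riemannZeta s := by
  have h0 : s ≠ 0 := by rintro rfl; simp at hs
  have hG : Gammaℝ s ≠ 0 := Gammaℝ_ne_zero_of_re_pos hs
  rw [ZZ, xiF_eq_zeta hs h1]
  field_simp

lemma ZZ_differentiableAt {s : ℂ} (hs : 0 < s.re) : DifferentiableAt ℂ ZZ s := by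
  have h0 : s ≠ 0 := by rintro rfl; simp at hs
  have hG : Gammaℝ s ≠ 0 := Gammaℝ_ne_zero_of_re_pos hs
  have h2 := Gammaℝ_differentiableAt hs
  unfold ZZ
  exact (xiF_differentiable s).div (by fun_prop) (mul_ne_zero h0 hG)

lemma xiF_ne_zero (hRH : RiemannHypothesis) {s : ℂ} (hs : 1 / 2 < s.re) : xiF s ≠ 0 := by
  intro h
  have := ntz_re hRH (xiF_eq_zero_iff.mp h)
  linarith

lemma ZZ_ne_zero (hRH : RiemannHypothesis) {s : ℂ} (hs : 1 / 2 < s.re) : ZZ s ≠ 0 := by
  have h0 : s ≠ 0 := by rintro rfl; simp at hs; linarith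
  have hG : Gammaℝ s ≠ 0 := Gammaℝ_ne_zero_of_re_pos (by linarith)
  exact div_ne_zero (xiF_ne_zero hRH hs) (mul_ne_zero h0 hG)

/-- `Q = Z'/Z`. -/
noncomputable def QQ (s : ℂ) : ℂ :=
  logDeriv xiF s - 1 / s + (Real.log Real.pi : ℂ) / 2 - logDeriv Complex.Gamma (s / 2) / 2

lemma logDeriv_ZZ (hRH : RiemannHypothesis) {s : ℂ} (hs : 1 / 2 < s.re) :
    logDeriv ZZ s = QQ s := by
  have hs0 : 0 < s.re := by linarith
  have h0 : s ≠ 0 := by rintro rfl; simp at hs0
  have hG : Gammaℝ s ≠ 0 := Gammaℝ_ne_zero_of_re_pos hs0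
  have h2 := Gammaℝ_differentiableAt hs0
  have h3 : ZZ = fun s => xiF s / (s * Gammaℝ s) := rfl
  rw [h3, logDeriv_div (f := xiF) (g := fun s => s * Gammaℝ s) s (xiF_ne_zero hRH hs)
    (mul_ne_zero h0 hG) (xiF_differentiable s)
    (by fun_prop), logDeriv_mul (f := fun s : ℂ => s) s h0 hG (by fun_prop) h2,
    logDeriv_Gammaℝ hs0]
  have e1 : logDeriv (fun s : ℂ => s) s = 1 / s := by
    rw [logDeriv_apply]; simp
  rw [e1, QQ]
  ring

lemma norm_digamma_half_le {s : ℂ} (hs : 1 / 2 ≤ s.re) (hs3 : s.re ≤ 3) :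
    ‖logDeriv Complex.Gamma (s / 2)‖ ≤ 100 * Real.log (|s.im| + 2) := by
  have hz : 0 < (s / 2).re := by
    have : (s / 2).re = s.re / 2 := by simp
    rw [this]; linarith
  have h1 := norm_digamma_sub_log_le hz
  have hge : (1:ℝ) / 4 ≤ ‖s / 2‖ := by
    have h2 := re_le_norm (s / 2)
    have : (s / 2).re = s.re / 2 := by simp
    rw [this] at h2; linarith
  have hpos : 0 < ‖s / 2‖ := by linarith
  have e1 : 2 / ‖s / 2‖ ≤ 8 := by
    rw [div_le_iff₀ hpos]; linarith
  have e2 : 2 / ‖s / 2‖ ^ 2 ≤ 32 := by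
    rw [div_le_iff₀ (by positivity)]; nlinarith
  have hlog : ‖Complex.log (s / 2)‖ ≤ |Real.log ‖s / 2‖| + Real.pi := by
    have h3 := Complex.norm_le_abs_re_add_abs_im (Complex.log (s / 2))
    rw [Complex.log_re, Complex.log_im] at h3
    have := Complex.abs_arg_le_pi (s / 2)
    linarith
  have hle : ‖s / 2‖ ≤ |s.im| + 2 := by
    have h4 := Complex.norm_le_abs_re_add_abs_im s
    rw [norm_div]
    have : ‖(2:ℂ)‖ = 2 := by simp
    rw [this, abs_of_nonneg (by linarith : (0:ℝ) ≤ s.re)] at *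
    have := abs_nonneg s.im
    linarith
  have hL : (1:ℝ) / 2 ≤ Real.log (|s.im| + 2) := one_half_le_log s.im
  have hlog2 : |Real.log ‖s / 2‖| ≤ Real.log (|s.im| + 2) + 2 := by
    rw [abs_le]
    constructor
    · have h5 : Real.log (1 / 4) ≤ Real.log ‖s / 2‖ := Real.log_le_log (by norm_num) hge
      have h6 : Real.log (1 / 4) = - (2 * Real.log 2) := by
        rw [show (1:ℝ) / 4 = (2 ^ 2)⁻¹ by norm_num, Real.log_inv, Real.log_pow]; norm_num
      have := Real.log_two_lt_d9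
      linarith
    · have h5 : Real.log ‖s / 2‖ ≤ Real.log (|s.im| + 2) := Real.log_le_log hpos hle
      linarith
  have h6 : ‖logDeriv Complex.Gamma (s / 2)‖ ≤
      ‖logDeriv Complex.Gamma (s / 2) - Complex.log (s / 2)‖ + ‖Complex.log (s / 2)‖ := by
    simpa using norm_add_le (logDeriv Complex.Gamma (s / 2) - Complex.log (s / 2))
      (Complex.log (s / 2))
  have := Real.pi_lt_four
  linarith

lemma norm_xi_diff_le (hRH : RiemannHypothesis) {η : ℝ} (hη : 0 < η) (hη1 : η ≤ 1) : ∃ C : ℝ,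
    0 < C ∧ ∀ s : ℂ, 1 / 2 + η ≤ s.re → s.re ≤ 3 →
    ‖logDeriv xiF s - logDeriv xiF (pt s.im)‖ ≤ C * Real.log (|s.im| + 2) := by
  obtain ⟨C, hC, hw⟩ := tsum_weight_le
  refine ⟨2 / η * C, by positivity, fun s hs hs3 => ?_⟩
  have hsn : s ∉ ntz := fun h => by have := ntz_re hRH h; linarith
  have hwn : pt s.im ∉ ntz := fun h => by have := ntz_re hRH h; simp at this; norm_num at this
  have h1 := hasSum_complex_zeros hsn hwn
  have hb : ∀ ρ : ntz, ‖(mult ρ : ℂ) * (1 / (s - ρ) - 1 / (pt s.im - ρ))‖ ≤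
      2 / η * ((mult ρ : ℝ) / (1 + (s.im - (ρ:ℂ).im) ^ 2)) := by
    intro ρ
    have hρ := ntz_re hRH ρ.2
    set v := s.im - (ρ:ℂ).im with hv
    have n1 : η ^ 2 * (1 + v ^ 2) ≤ ‖s - ρ‖ ^ 2 := by
      rw [Complex.sq_norm, Complex.normSq_apply]
      simp only [sub_re, sub_im, ← hv, hρ]
      have : η ^ 2 ≤ 1 := by nlinarith
      nlinarith [sq_nonneg v, sq_nonneg (s.re - 1 / 2 - η)]
    have n2 : 1 + v ^ 2 ≤ ‖pt s.im - ρ‖ ^ 2 := by
      rw [Complex.sq_norm, Complex.normSq_apply]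
      simp only [sub_re, sub_im, pt_re, pt_im, ← hv, hρ]
      nlinarith [sq_nonneg v]
    have hs0 : s - ρ ≠ 0 := by
      intro h; rw [h] at n1; simp at n1; nlinarith [sq_nonneg v, sq_pos_of_pos hη]
    have hw0 : pt s.im - ρ ≠ 0 := by
      intro h; rw [h] at n2; simp at n2; nlinarith [sq_nonneg v]
    have e1 : 1 / (s - ρ) - 1 / (pt s.im - ρ) = (pt s.im - s) / ((s - ρ) * (pt s.im - ρ)) := by
      field_simp
      ring
    have e2 : ‖pt s.im - s‖ ≤ 2 := by
      have : pt s.im - s = ((2 - s.re : ℝ) : ℂ) := by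
        apply Complex.ext <;> simp
      rw [this, Complex.norm_real, Real.norm_eq_abs, abs_le]
      constructor <;> linarith
    have n3 : η * (1 + v ^ 2) ≤ ‖s - ρ‖ * ‖pt s.im - ρ‖ := by
      refine abs_le_of_sq_le_sq' ?_ (by positivity) |>.2
      rw [mul_pow, mul_pow]
      calc η ^ 2 * (1 + v ^ 2) ^ 2 = (η ^ 2 * (1 + v ^ 2)) * (1 + v ^ 2) := by ring
        _ ≤ ‖s - ρ‖ ^ 2 * ‖pt s.im - ρ‖ ^ 2 := by gcongr
    rw [norm_mul, e1, norm_div, norm_mul]
    have hm : ‖(mult ρ : ℂ)‖ = (mult ρ : ℝ) := by simp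
    rw [hm]
    have : ‖pt s.im - s‖ / (‖s - ρ‖ * ‖pt s.im - ρ‖) ≤ 2 / (η * (1 + v ^ 2)) :=
      div_le_div₀ (by norm_num) e2 (by positivity) n3
    calc (mult ρ : ℝ) * (‖pt s.im - s‖ / (‖s - ρ‖ * ‖pt s.im - ρ‖))
        ≤ (mult ρ : ℝ) * (2 / (η * (1 + v ^ 2))) := by gcongr
      _ = _ := by field_simp
  have h2 := (summable_weight s.im).mul_left (2 / η)
  have h3 := tsum_of_norm_bounded (h2.hasSum) hb
  rw [h1.tsum_eq, tsum_mul_left] at h3
  refine h3.trans ?_
  rw [mul_assoc]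
  gcongr
  exact hw s.im

/-- Under RH, `Z'/Z ≪ log` to the right of the critical line. -/
lemma norm_QQ_le (hRH : RiemannHypothesis) {η : ℝ} (hη : 0 < η) (hη1 : η ≤ 1) : ∃ C : ℝ,
    0 < C ∧ ∀ s : ℂ, 1 / 2 + η ≤ s.re → s.re ≤ 3 → ‖QQ s‖ ≤ C * Real.log (|s.im| + 2) := by
  obtain ⟨C, hC, h1⟩ := norm_xi_diff_le hRH hη hη1
  obtain ⟨B, hB, h2⟩ := norm_logDeriv_zeta_two
  refine ⟨C + 2 * B + 200, by positivity, fun s hs hs3 => ?_⟩
  have h3 := h1 s hs hs3
  have h4 := h2 s.im
  have hL : (1:ℝ) / 2 ≤ Real.log (|s.im| + 2) := one_half_le_log s.im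
  have h5 := logDeriv_xiF_pt s.im
  have h6 := norm_digamma_half_le (s := s) (by linarith) hs3
  have h7 := norm_digamma_half_le (s := pt s.im) (by simp; norm_num) (by simp; norm_num)
  rw [pt_im] at h7
  have h8 := norm_one_div_pt s.im
  have h9 := norm_one_div_pt_sub s.im
  have h10 : ‖1 / s‖ ≤ 2 := by
    rw [norm_div, norm_one]
    have hge : (1:ℝ) / 2 ≤ ‖s‖ := by have := re_le_norm s; linarith
    rw [div_le_iff₀ (by linarith)]; linarith
  have key : QQ s = (logDeriv xiF s - logDeriv xiF (pt s.im)) + 1 / pt s.im + 1 / (pt s.im - 1) +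
      logDeriv Complex.Gamma (pt s.im / 2) / 2 + logDeriv riemannZeta (pt s.im) - 1 / s
      - logDeriv Complex.Gamma (s / 2) / 2 := by
    rw [QQ, h5]; ring
  rw [key]
  have n1 : ‖logDeriv Complex.Gamma (s / 2) / 2‖ ≤ 50 * Real.log (|s.im| + 2) := by
    rw [norm_div]; simp only [Complex.norm_ofNat]; linarith
  have n2 : ‖logDeriv Complex.Gamma (pt s.im / 2) / 2‖ ≤ 50 * Real.log (|s.im| + 2) := by
    rw [norm_div]; simp only [Complex.norm_ofNat]; linarith
  refine (norm_sub_le _ _).trans ?_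
  refine (add_le_add_left (norm_sub_le _ _) _).trans ?_
  refine (add_le_add_left (add_le_add_left (norm_add_le _ _) _) _).trans ?_
  refine (add_le_add_left (add_le_add_left (add_le_add_left (norm_add_le _ _) _) _) _).trans ?_
  refine (add_le_add_left (add_le_add_left (add_le_add_left (add_le_add_left
    (norm_add_le _ _) _) _) _) _).trans ?_
  refine (add_le_add_left (add_le_add_left (add_le_add_left (add_le_add_left
    (add_le_add_left (norm_add_le _ _) _) _) _) _) _).trans ?_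
  nlinarith

lemma QQ_differentiableAt (hRH : RiemannHypothesis) {s : ℂ} (hs : 1 / 2 < s.re) :
    DifferentiableAt ℂ QQ s := by
  have ho : IsOpen {z : ℂ | 1 / 2 < z.re} := isOpen_lt continuous_const continuous_re
  have hd : DifferentiableOn ℂ ZZ {z : ℂ | 1 / 2 < z.re} := fun z hz =>
    (ZZ_differentiableAt (by have : 1 / 2 < z.re := hz; linarith)).differentiableWithinAt
  have h1 : DifferentiableAt ℂ (fun z => deriv ZZ z / ZZ z) s := by
    have h2 := (hd.deriv ho).differentiableAt (ho.mem_nhds hs)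
    exact h2.div (ZZ_differentiableAt (by linarith)) (ZZ_ne_zero hRH hs)
  refine h1.congr_of_eventuallyEq ?_
  filter_upwards [ho.mem_nhds hs] with z hz
  rw [← logDeriv_ZZ hRH hz, logDeriv_apply]

lemma norm_QQ_two (hRH : RiemannHypothesis) : ∃ C : ℝ, 0 < C ∧ ∀ t : ℝ, ‖QQ (pt t)‖ ≤ C := by
  obtain ⟨B, hB, h2⟩ := norm_logDeriv_zeta_two
  refine ⟨1 + B, by positivity, fun t => ?_⟩
  have h5 := logDeriv_xiF_pt t
  have key : QQ (pt t) = 1 / (pt t - 1) + logDeriv riemannZeta (pt t) := by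
    rw [QQ, h5]; ring
  rw [key]
  exact (norm_add_le _ _).trans (add_le_add (norm_one_div_pt_sub t) (h2 t))

/-- Under RH, `Z'/Z = O((log t)^(1-θ))` to the right of the critical line. -/
lemma norm_QQ_le_rpow (hRH : RiemannHypothesis) {η : ℝ} (hη : 0 < η) (hη1 : η ≤ 1) : ∃ C θ : ℝ,
    0 < C ∧ 0 < θ ∧ θ < 1 ∧ ∀ s : ℂ, 1 / 2 + η ≤ s.re → s.re ≤ 2 →
      ‖QQ s‖ ≤ C * Real.log (|s.im| + 2) ^ (1 - θ) := by
  obtain ⟨C, hC, h1⟩ := norm_QQ_le hRH (η := η / 2) (by positivity) (by linarith)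
  obtain ⟨B, hB, h2⟩ := norm_QQ_two hRH
  set l : ℝ := 1 / 2 + η / 2 with hl
  -- the constant for the line `Re = l`
  set a : ℝ → ℝ := fun T => Real.exp 9 * (3 * C) * Real.log (|T| + 2) with ha
  set b : ℝ := Real.exp 9 * (B + 1) with hb
  have hul : l < 2 := by rw [hl]; linarith
  have hlogadd : ∀ y T : ℝ, Real.log (|y + T| + 2) ≤ 3 * Real.log (|T| + 2) * Real.exp (y ^ 2) := by
    intro y T
    have hL : (1:ℝ) / 2 ≤ Real.log (|T| + 2) := one_half_le_log T
    have e1 : |y + T| + 2 ≤ (|T| + 2) * (1 + |y|) := by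
      have := abs_add_le y T
      have h3 := abs_nonneg y
      have h4 := abs_nonneg T
      nlinarith
    have e2 : Real.log (|y + T| + 2) ≤ Real.log (|T| + 2) + Real.log (1 + |y|) := by
      rw [← Real.log_mul (by positivity) (by positivity)]
      exact Real.log_le_log (by positivity) e1
    have e3 : Real.log (1 + |y|) ≤ |y| := by
      have := Real.log_le_sub_one_of_pos (show (0:ℝ) < 1 + |y| by positivity)
      linarith
    have e4 : 1 + y ^ 2 ≤ Real.exp (y ^ 2) := by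
      have := Real.add_one_le_exp (y ^ 2); linarith
    have e5 : |y| ≤ 1 / 2 * (1 + y ^ 2) := by
      rw [← sq_abs y]; nlinarith [sq_nonneg (|y| - 1)]
    have e6 : 1 ≤ Real.exp (y ^ 2) := Real.one_le_exp (sq_nonneg y)
    nlinarith
  refine ⟨Real.exp 9 * (3 * C + B + 1) * 2 , η / 4, by positivity, by positivity, by linarith,
    fun s hs hs2 => ?_⟩
  set T := s.im with hT
  set f : ℂ → ℂ := fun z => QQ (z + T * I) * Complex.exp (z ^ 2) with hf
  have hre : ∀ z : ℂ, (z + T * I).re = z.re := fun z => by simp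
  have him : ∀ z : ℂ, (z + T * I).im = z.im + T := fun z => by simp
  have hexp : ∀ z : ℂ, ‖Complex.exp (z ^ 2)‖ = Real.exp (z.re ^ 2 - z.im ^ 2) := by
    intro z
    rw [Complex.norm_exp]
    congr 1
    simp [sq]
  have hbound : ∀ z : ℂ, l ≤ z.re → z.re ≤ 2 → ‖f z‖ ≤ a T := by
    intro z hz1 hz2
    have h3 := h1 (z + T * I) (by rw [hre]; exact hz1) (by rw [hre]; linarith)
    rw [him] at h3
    simp only [hf, norm_mul, hexp]
    have h4 := hlogadd z.im T
    have h5 : Real.exp (z.re ^ 2 - z.im ^ 2) ≤ Real.exp 9 * Real.exp (-(z.im ^ 2)) := by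
      rw [← Real.exp_add]
      apply Real.exp_le_exp.mpr
      have : z.re ^ 2 ≤ 4 := by
        have : 0 ≤ z.re := by rw [hl] at hz1; linarith
        nlinarith
      linarith
    have hL : (1:ℝ) / 2 ≤ Real.log (|T| + 2) := one_half_le_log T
    calc ‖QQ (z + T * I)‖ * Real.exp (z.re ^ 2 - z.im ^ 2)
        ≤ (C * (3 * Real.log (|T| + 2) * Real.exp (z.im ^ 2))) *
            (Real.exp 9 * Real.exp (-(z.im ^ 2))) := by
          gcongr
          exact h3.trans (by gcongr)
      _ = Real.exp 9 * (3 * C) * Real.log (|T| + 2) * (Real.exp (z.im ^ 2) *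
            Real.exp (-(z.im ^ 2))) := by ring
      _ = a T := by rw [← Real.exp_add]; simp [ha]
  have hboundr : ∀ z : ℂ, z.re = 2 → ‖f z‖ ≤ b := by
    intro z hz
    have e1 : z + T * I = pt (z.im + T) := by
      apply Complex.ext <;> simp [hz]
    simp only [hf, norm_mul, hexp]
    rw [e1]
    have h3 := h2 (z.im + T)
    have h5 : Real.exp (z.re ^ 2 - z.im ^ 2) ≤ Real.exp 9 := by
      apply Real.exp_le_exp.mpr
      rw [hz]
      have := sq_nonneg z.im
      norm_num; linarith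
    calc ‖QQ (pt (z.im + T))‖ * Real.exp (z.re ^ 2 - z.im ^ 2) ≤ B * Real.exp 9 := by gcongr
      _ ≤ b := by rw [hb]; nlinarith [Real.exp_pos (9:ℝ)]
  have hmem : (s.re : ℂ) ∈ Complex.HadamardThreeLines.verticalClosedStrip l 2 := by
    simp only [Complex.HadamardThreeLines.verticalClosedStrip, mem_preimage, ofReal_re, mem_Icc]
    constructor
    · rw [hl]; linarith
    · exact hs2
  have hdiff : DifferentiableOn ℂ f {z : ℂ | 1 / 2 < z.re} := by
    intro z hz
    have h3 : DifferentiableAt ℂ QQ (z + T * I) := QQ_differentiableAt hRH (by rw [hre]; exact hz)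
    have h4 : DifferentiableAt ℂ (fun z : ℂ => QQ (z + T * I)) z := by
      have h5 : DifferentiableAt ℂ (fun z : ℂ => z + T * I) z := by fun_prop
      exact DifferentiableAt.comp z h3 h5
    exact (h4.mul (by fun_prop)).differentiableWithinAt
  have hsub : Complex.HadamardThreeLines.verticalClosedStrip l 2 ⊆ {z : ℂ | 1 / 2 < z.re} := by
    intro z hz
    simp only [Complex.HadamardThreeLines.verticalClosedStrip, mem_preimage, mem_Icc] at hz
    simp only [mem_setOf_eq]
    rw [hl] at hz; linarith [hz.1]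
  have hd : DiffContOnCl ℂ f (Complex.HadamardThreeLines.verticalStrip l 2) := by
    refine ⟨hdiff.mono fun z hz => hsub ?_, ?_⟩
    · simp only [Complex.HadamardThreeLines.verticalStrip, mem_preimage, mem_Ioo] at hz
      simp only [Complex.HadamardThreeLines.verticalClosedStrip, mem_preimage, mem_Icc]
      exact ⟨hz.1.le, hz.2.le⟩
    · refine hdiff.continuousOn.mono fun z hz => hsub ?_
      have hcl : IsClosed (Complex.HadamardThreeLines.verticalClosedStrip l 2) :=
        isClosed_Icc.preimage continuous_re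
      refine closure_minimal ?_ hcl hz
      intro w hw
      simp only [Complex.HadamardThreeLines.verticalStrip, mem_preimage, mem_Ioo] at hw
      simp only [Complex.HadamardThreeLines.verticalClosedStrip, mem_preimage, mem_Icc]
      exact ⟨hw.1.le, hw.2.le⟩
  have hB' : BddAbove ((norm ∘ f) '' Complex.HadamardThreeLines.verticalClosedStrip l 2) := by
    refine ⟨a T, ?_⟩
    rintro _ ⟨z, hz, rfl⟩
    simp only [Complex.HadamardThreeLines.verticalClosedStrip, mem_preimage, mem_Icc] at hz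
    exact hbound z hz.1 hz.2
  have h3 := Complex.HadamardThreeLines.norm_le_interp_of_mem_verticalClosedStrip' hul hmem hd hB'
    (a := a T) (b := b) (fun z hz => by
      simp only [mem_preimage, mem_singleton_iff] at hz
      exact hbound z (by rw [hz]) (by rw [hz]; linarith))
    (fun z hz => by
      simp only [mem_preimage, mem_singleton_iff] at hz
      exact hboundr z hz)
  rw [ofReal_re] at h3
  have hfs : ‖QQ s‖ ≤ ‖f s.re‖ := by
    simp only [hf, norm_mul, hexp, ofReal_re, ofReal_im]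
    have e1 : (s.re : ℂ) + T * I = s := by rw [hT]; exact Complex.re_add_im s
    rw [e1]
    have : 1 ≤ Real.exp (s.re ^ 2 - 0 ^ 2) := Real.one_le_exp (by nlinarith [sq_nonneg s.re])
    nlinarith [norm_nonneg (QQ s)]
  refine hfs.trans (h3.trans ?_)
  have hL : (1:ℝ) / 2 ≤ Real.log (|T| + 2) := one_half_le_log T
  set x := (s.re - l) / (2 - l) with hx
  have hx0 : η / 4 ≤ x := by
    rw [hx, le_div_iff₀ (by linarith)]
    rw [hl]
    nlinarith
  have hx1 : x ≤ 1 := by
    rw [hx, div_le_one (by linarith)]; linarith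
  set K := Real.exp 9 * (3 * C + B + 1) with hK
  have hK1 : 1 ≤ K := by
    have : 1 ≤ Real.exp 9 := Real.one_le_exp (by norm_num)
    rw [hK]; nlinarith
  have hlp : 0 < Real.log (|T| + 2) := by linarith
  have hKp : 0 < K := by linarith
  have hKL : 0 < K * Real.log (|T| + 2) := by positivity
  have e1 : a T ^ (1 - x) ≤ (K * Real.log (|T| + 2)) ^ (1 - x) := by
    apply Real.rpow_le_rpow (by simp only [ha]; positivity) _ (by linarith)
    simp only [ha, hK]
    gcongr
    linarith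
  have e2 : b ^ x ≤ K ^ x := by
    apply Real.rpow_le_rpow (by positivity) _ (by linarith)
    simp only [hb, hK]
    gcongr
    linarith
  have e3 : Real.log (|T| + 2) ^ (1 - x) ≤ 2 * Real.log (|T| + 2) ^ (1 - η / 4) := by
    have : Real.log (|T| + 2) ^ (1 - x) = Real.log (|T| + 2) ^ (1 - η / 4) *
        Real.log (|T| + 2) ^ (η / 4 - x) := by
      rw [← Real.rpow_add (by linarith)]; congr 1; ring
    rw [this]
    have e4 : Real.log (|T| + 2) ^ (η / 4 - x) ≤ 2 := by
      have e5 : Real.log (|T| + 2) ^ (η / 4 - x) ≤ (1 / 2 : ℝ) ^ (η / 4 - x) := by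
        apply Real.rpow_le_rpow_of_nonpos (by norm_num) hL (by linarith)
      refine e5.trans ?_
      rw [one_div, Real.inv_rpow (by norm_num), ← Real.rpow_neg (by norm_num)]
      calc (2:ℝ) ^ (-(η / 4 - x)) ≤ 2 ^ (1:ℝ) :=
            Real.rpow_le_rpow_of_exponent_le (by norm_num) (by linarith)
        _ = 2 := by simp
    have : 0 ≤ Real.log (|T| + 2) ^ (1 - η / 4) := Real.rpow_nonneg (by linarith) _
    nlinarith
  calc a T ^ (1 - x) * b ^ x ≤ (K * Real.log (|T| + 2)) ^ (1 - x) * K ^ x := by gcongr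
    _ = K * Real.log (|T| + 2) ^ (1 - x) := by
        rw [Real.mul_rpow hKp.le hlp.le, mul_right_comm, ← Real.rpow_add hKp]
        simp
    _ ≤ K * (2 * Real.log (|T| + 2) ^ (1 - η / 4)) := by gcongr
    _ = _ := by ring

end Pool.Agent.SqFull
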