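import Pool.Agent.SqFull.RHBound

/-!
# `ζ(s)` and `1/ζ(s)` are `O(t^ε)` to the right of the critical line, under RH
-/

open Complex Filter Topology Set Pool.Agent.Hadamard

namespace Pool.Agent.SqFull

lemma norm_zeta_two_sub_one_le (t : ℝ) : ‖riemannZeta (pt t) - 1‖ ≤ Real.pi ^ 2 / 6 - 1 := by
  have h1 : riemannZeta (pt t) = ∑' n : ℕ, 1 / (n + 1 : ℂ) ^ (pt t) :=
    zeta_eq_tsum_one_div_nat_add_one_cpow (by simp)
  have hs2 := hasSum_zeta_two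
  have hnorm : ∀ n : ℕ, ‖(1 : ℂ) / (n + 1 : ℂ) ^ (pt t)‖ = 1 / ((n:ℝ) + 1) ^ 2 := by
    intro n
    rw [norm_div, norm_one]
    have : (n + 1 : ℂ) = (((n + 1 : ℕ) : ℝ) : ℂ) := by push_cast; ring
    rw [this, Complex.norm_cpow_eq_rpow_re_of_pos (by positivity), pt_re]
    push_cast
    norm_num
  have hs3 : Summable (fun n : ℕ => 1 / ((n:ℝ) + 1) ^ 2) := by
    have := (summable_nat_add_iff 1).mpr hs2.summable
    simpa using this
  have hs4 : Summable (fun n : ℕ => (1 : ℂ) / (n + 1 : ℂ) ^ (pt t)) := by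
    refine Summable.of_norm ?_
    exact hs3.congr fun n => (hnorm n).symm
  have h5 : riemannZeta (pt t) - 1 = ∑' n : ℕ, 1 / ((n + 1 : ℕ) + 1 : ℂ) ^ (pt t) := by
    rw [h1, hs4.tsum_eq_zero_add]
    simp
  rw [h5]
  have hs6 : Summable (fun n : ℕ => 1 / (((n + 1 : ℕ):ℝ) + 1) ^ 2) :=
    (summable_nat_add_iff 1).mpr hs3
  have h7 : ‖∑' n : ℕ, 1 / ((n + 1 : ℕ) + 1 : ℂ) ^ (pt t)‖ ≤
      ∑' n : ℕ, 1 / (((n + 1 : ℕ):ℝ) + 1) ^ 2 := by
    refine tsum_of_norm_bounded hs6.hasSum fun n => ?_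
    rw [hnorm (n + 1)]
  refine h7.trans ?_
  have h8 : ∑' n : ℕ, 1 / ((n:ℝ)) ^ 2 = Real.pi ^ 2 / 6 := hs2.tsum_eq
  have h9 : ∑' n : ℕ, 1 / ((n:ℝ)) ^ 2 = 0 + ∑' n : ℕ, 1 / ((n:ℝ) + 1) ^ 2 := by
    rw [hs2.summable.tsum_eq_zero_add]; simp
  have h10 : ∑' n : ℕ, 1 / ((n:ℝ) + 1) ^ 2 = 1 + ∑' n : ℕ, 1 / (((n + 1 : ℕ):ℝ) + 1) ^ 2 := by
    rw [hs3.tsum_eq_zero_add]; simp
  linarith

lemma norm_zeta_two_bounds (t : ℝ) : 1 / 4 ≤ ‖riemannZeta (pt t)‖ ∧ ‖riemannZeta (pt t)‖ ≤ 2 := by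
  have h := norm_zeta_two_sub_one_le t
  have h11 : Real.pi ^ 2 < 10.5 := by
    have := Real.pi_lt_d2
    nlinarith [Real.pi_pos]
  have h1 : ‖riemannZeta (pt t)‖ ≤ ‖riemannZeta (pt t) - 1‖ + 1 := by
    have := norm_add_le (riemannZeta (pt t) - 1) 1
    simpa using this
  have h2 : 1 ≤ ‖riemannZeta (pt t)‖ + ‖riemannZeta (pt t) - 1‖ := by
    have := norm_sub_le (riemannZeta (pt t)) (riemannZeta (pt t) - 1)
    simpa using this
  constructor <;> linarith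

lemma norm_pt_sub_one_bounds (t : ℝ) : (|t| + 2) / 4 ≤ ‖pt t - 1‖ ∧ ‖pt t - 1‖ ≤ |t| + 2 := by
  have e1 : pt t - 1 = 1 + t * I := by unfold pt; ring
  have hsq : ‖pt t - 1‖ ^ 2 = 1 + |t| ^ 2 := by
    rw [e1, Complex.sq_norm, Complex.normSq_apply]
    simp [sq]
  have h0 := abs_nonneg t
  constructor
  · refine abs_le_of_sq_le_sq' ?_ (norm_nonneg _) |>.2
    rw [hsq]; nlinarith [sq_nonneg (|t| - 1)]
  · refine abs_le_of_sq_le_sq' ?_ (by positivity) |>.2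
    rw [hsq]; nlinarith

/-- If `‖f'‖ ≤ M ‖f‖` then `f` changes by a factor at most `exp (M |b-a|)`. -/
lemma norm_le_exp_mul {f f' : ℝ → ℂ} {M a b : ℝ} (hab : a ≤ b)
    (hf : ∀ x ∈ Icc a b, HasDerivAt f (f' x) x)
    (hM : ∀ x ∈ Icc a b, ‖f' x‖ ≤ M * ‖f x‖) : ‖f b‖ ≤ ‖f a‖ * Real.exp (M * (b - a)) := by
  have h := norm_le_gronwallBound_of_norm_deriv_right_le (f := f) (f' := f') (δ := ‖f a‖) (K := M)
    (ε := 0) (a := a) (b := b) (fun x hx => (hf x hx).continuousAt.continuousWithinAt)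
    (fun x hx => (hf x (Ico_subset_Icc_self hx)).hasDerivWithinAt) le_rfl
    (fun x hx => by simpa using hM x (Ico_subset_Icc_self hx)) b ⟨hab, le_rfl⟩
  rwa [gronwallBound_ε0] at h

lemma norm_ratio {f f' : ℝ → ℂ} {M a b : ℝ} (hab : a ≤ b)
    (hf : ∀ x ∈ Icc a b, HasDerivAt f (f' x) x)
    (hM : ∀ x ∈ Icc a b, ‖f' x‖ ≤ M * ‖f x‖) : ‖f b‖ ≤ ‖f a‖ * Real.exp (M * (b - a)) ∧
      ‖f a‖ ≤ ‖f b‖ * Real.exp (M * (b - a)) := by
  refine ⟨norm_le_exp_mul hab hf hM, ?_⟩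
  have h := norm_le_exp_mul (f := fun x => f (-x)) (f' := fun x => -f' (-x)) (M := M) (a := -b)
    (b := -a) (by linarith) (fun x hx => ?_) (fun x hx => ?_)
  · simp only [neg_neg] at h
    have e : -a - -b = b - a := by ring
    rwa [e] at h
  · have h1 := hf (-x) ⟨by linarith [hx.2], by linarith [hx.1]⟩
    have h2 := h1.scomp x (hasDerivAt_neg x)
    rw [neg_one_smul] at h2
    exact h2
  · rw [norm_neg]
    exact hM (-x) ⟨by linarith [hx.2], by linarith [hx.1]⟩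

lemma exp_rpow_le {C θ ε : ℝ} (hC : 0 < C) (hθ : 0 < θ) (hθ1 : θ < 1) (hε : 0 < ε) : ∃ K : ℝ,
    0 < K ∧ ∀ t : ℝ, Real.exp (C * Real.log (|t| + 2) ^ (1 - θ)) ≤ K * (|t| + 2) ^ ε := by
  set L0 : ℝ := (C / ε) ^ (1 / θ) with hL0
  have hL0p : 0 < L0 := by positivity
  refine ⟨Real.exp (C * L0 ^ (1 - θ)), Real.exp_pos _, fun t => ?_⟩
  set L := Real.log (|t| + 2) with hL
  have hLh : (1:ℝ) / 2 ≤ L := one_half_le_log t
  have hLp : 0 < L := by linarith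
  have e1 : (|t| + 2) ^ ε = Real.exp (ε * L) := by
    rw [Real.rpow_def_of_pos (by positivity), mul_comm]
  rw [e1, ← Real.exp_add]
  apply Real.exp_le_exp.mpr
  rcases le_or_gt L L0 with h | h
  · have : L ^ (1 - θ) ≤ L0 ^ (1 - θ) := Real.rpow_le_rpow hLp.le h (by linarith)
    have h2 : 0 < ε * L := by positivity
    nlinarith
  · have h2 : C * L ^ (1 - θ) ≤ ε * L := by
      have h3 : L ^ (1 - θ) = L * L ^ (-θ) := by
        rw [sub_eq_add_neg, Real.rpow_add hLp, Real.rpow_one]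
      have h4 : L ^ (-θ) ≤ ε / C := by
        have h5 : L ^ (-θ) ≤ L0 ^ (-θ) := Real.rpow_le_rpow_of_nonpos hL0p h.le (by linarith)
        have h6 : L0 ^ (-θ) = ε / C := by
          rw [hL0, ← Real.rpow_mul (by positivity)]
          have : 1 / θ * -θ = -1 := by field_simp
          rw [this, Real.rpow_neg_one, inv_div]
        rw [h6] at h5; exact h5
      rw [h3]
      calc C * (L * L ^ (-θ)) ≤ C * (L * (ε / C)) := by gcongr
        _ = ε * L := by field_simp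
    have h3 : 0 < C * L0 ^ (1 - θ) := by positivity
    linarith

/-- Under RH, `Z(s)` and `1/Z(s)` have the expected size up to `t^ε` to the right of the
critical line. -/
theorem ZZ_bounds (hRH : RiemannHypothesis) {η ε : ℝ} (hη : 0 < η) (hη1 : η ≤ 1) (hε : 0 < ε) :
    ∃ C : ℝ, 0 < C ∧ ∀ s : ℂ, 1 / 2 + η ≤ s.re → s.re ≤ 2 →
      ‖ZZ s‖ ≤ C * (|s.im| + 2) ^ (1 + ε) ∧ ‖ZZ s‖⁻¹ ≤ C * (|s.im| + 2) ^ (ε - 1) := by
  obtain ⟨C, θ, hC, hθ, hθ1, h1⟩ := norm_QQ_le_rpow hRH hη hη1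
  obtain ⟨K, hK, h2⟩ := exp_rpow_le (C := 2 * C) (θ := θ) (ε := ε) (by positivity) hθ hθ1 hε
  refine ⟨16 * K, by positivity, fun s hs hs2 => ?_⟩
  set t := s.im with ht
  set L := Real.log (|t| + 2) with hL
  have hLh : (1:ℝ) / 2 ≤ L := one_half_le_log t
  have hLp : 0 < L := by linarith
  set f : ℝ → ℂ := fun x => ZZ (x + t * I) with hf
  have hd : ∀ x ∈ Icc s.re 2, HasDerivAt f (QQ (x + t * I) * f x) x := by
    intro x hx
    have hre : ((x:ℂ) + t * I).re = x := by simp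
    have hpos : 1 / 2 < ((x:ℂ) + t * I).re := by rw [hre]; linarith [hx.1]
    have h3 : HasDerivAt ZZ (deriv ZZ (x + t * I)) (x + t * I) :=
      (ZZ_differentiableAt (by linarith)).hasDerivAt
    have h4 : HasDerivAt (fun x : ℝ => (x:ℂ) + t * I) 1 x := by
      simpa using (Complex.ofRealCLM.hasDerivAt (x := x)).add_const (t * I)
    have h5 := h3.comp x h4
    rw [mul_one] at h5
    have h6 : deriv ZZ (x + t * I) = QQ (x + t * I) * f x := by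
      rw [← logDeriv_ZZ hRH hpos, logDeriv_apply]
      simp only [hf]
      rw [div_mul_cancel₀ _ (ZZ_ne_zero hRH hpos)]
    rw [h6] at h5
    exact h5
  have hM : ∀ x ∈ Icc s.re 2, ‖QQ (x + t * I) * f x‖ ≤ (C * L ^ (1 - θ)) * ‖f x‖ := by
    intro x hx
    rw [norm_mul]
    have h3 := h1 (x + t * I) (by simp; linarith [hx.1]) (by simpa using hx.2)
    have him : ((x:ℂ) + t * I).im = t := by simp
    rw [him] at h3
    gcongr
  obtain ⟨r1, r2⟩ := norm_ratio hs2 hd hM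
  have e1 : f s.re = ZZ s := by simp only [hf, ht, Complex.re_add_im]
  have e2 : f 2 = (pt t - 1) * riemannZeta (pt t) := by
    have : f 2 = ZZ (pt t) := by simp only [hf]; unfold pt; push_cast; rfl
    rw [this, ZZ_eq (by simp) (pt_ne_one t)]
  have e3 : Real.exp (C * L ^ (1 - θ) * (2 - s.re)) ≤ K * (|t| + 2) ^ ε := by
    refine le_trans ?_ (h2 t)
    apply Real.exp_le_exp.mpr
    have h3 : 0 ≤ C * L ^ (1 - θ) := by positivity
    nlinarith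
  obtain ⟨z1, z2⟩ := norm_zeta_two_bounds t
  obtain ⟨p1, p2⟩ := norm_pt_sub_one_bounds t
  have hx0 : 0 < |t| + 2 := by positivity
  have hKt : 0 < K * (|t| + 2) ^ ε := by positivity
  rw [e1, e2, norm_mul] at r1 r2
  constructor
  · calc ‖ZZ s‖ ≤ ‖pt t - 1‖ * ‖riemannZeta (pt t)‖ * Real.exp (C * L ^ (1 - θ) * (2 - s.re)) := r2
      _ ≤ (|t| + 2) * 2 * (K * (|t| + 2) ^ ε) := by gcongr
      _ = 2 * K * (|t| + 2) ^ (1 + ε) := by
          rw [Real.rpow_add hx0, Real.rpow_one]; ring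
      _ ≤ 16 * K * (|t| + 2) ^ (1 + ε) := by
          gcongr
          norm_num
  · have hZ : 0 < ‖ZZ s‖ := norm_pos_iff.mpr (ZZ_ne_zero hRH (by linarith))
    have h3 : (|t| + 2) / 16 ≤ ‖ZZ s‖ * (K * (|t| + 2) ^ ε) := by
      calc (|t| + 2) / 16 = (|t| + 2) / 4 * (1 / 4) := by ring
        _ ≤ ‖pt t - 1‖ * ‖riemannZeta (pt t)‖ := by gcongr
        _ ≤ ‖ZZ s‖ * Real.exp (C * L ^ (1 - θ) * (2 - s.re)) := r1
        _ ≤ _ := by gcongr
    rw [inv_le_iff_one_le_mul₀ hZ]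
    have h4 : (|t| + 2) ^ (ε - 1) = (|t| + 2) ^ ε / (|t| + 2) := by
      rw [Real.rpow_sub hx0, Real.rpow_one]
    rw [h4]
    have h5 : 16 * K * ((|t| + 2) ^ ε / (|t| + 2)) * ‖ZZ s‖ =
        16 * (‖ZZ s‖ * (K * (|t| + 2) ^ ε)) / (|t| + 2) := by ring
    rw [h5, le_div_iff₀ hx0]
    linarith

end Pool.Agent.SqFull
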