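import Pool.Agent.SqFull.RHBound2
import Pool.Agent.Lib.ANT.CharRem
import Mathlib.Analysis.Complex.Hadamard

/-!
# Bounds for `ζ` in the right half plane under RH, also to the left of the critical line
-/

open Complex Filter Topology Set Pool.Agent.Hadamard Pool.Agent.ANT

namespace Pool.Agent.SqFull

lemma norm_zeta_sub_one_le {s : ℂ} (hs : 2 ≤ s.re) : ‖riemannZeta s - 1‖ ≤ Real.pi ^ 2 / 6 - 1 := by
  have h1 : riemannZeta s = ∑' n : ℕ, 1 / (n + 1 : ℂ) ^ s :=
    zeta_eq_tsum_one_div_nat_add_one_cpow (by linarith)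
  have hs2 := hasSum_zeta_two
  have hnorm : ∀ n : ℕ, ‖(1 : ℂ) / (n + 1 : ℂ) ^ s‖ ≤ 1 / ((n:ℝ) + 1) ^ 2 := by
    intro n
    rw [norm_div, norm_one]
    have : (n + 1 : ℂ) = (((n + 1 : ℕ) : ℝ) : ℂ) := by push_cast; ring
    rw [this, Complex.norm_cpow_eq_rpow_re_of_pos (by positivity)]
    push_cast
    have h1 : (1:ℝ) ≤ (n:ℝ) + 1 := by linarith [(Nat.cast_nonneg n : (0:ℝ) ≤ n)]
    have h2 : ((n:ℝ) + 1) ^ (2:ℕ) ≤ ((n:ℝ) + 1) ^ s.re := by
      rw [← Real.rpow_natCast]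
      exact Real.rpow_le_rpow_of_exponent_le h1 (by push_cast; exact hs)
    exact one_div_le_one_div_of_le (by positivity) h2
  have hs3 : Summable (fun n : ℕ => 1 / ((n:ℝ) + 1) ^ 2) := by
    have := (summable_nat_add_iff 1).mpr hs2.summable
    simpa using this
  have hs4 : Summable (fun n : ℕ => (1 : ℂ) / (n + 1 : ℂ) ^ s) :=
    Summable.of_norm_bounded hs3 hnorm
  have h5 : riemannZeta s - 1 = ∑' n : ℕ, 1 / ((n + 1 : ℕ) + 1 : ℂ) ^ s := by
    rw [h1, hs4.tsum_eq_zero_add]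
    simp
  rw [h5]
  have hs6 : Summable (fun n : ℕ => 1 / (((n + 1 : ℕ):ℝ) + 1) ^ 2) :=
    (summable_nat_add_iff 1).mpr hs3
  have h7 : ‖∑' n : ℕ, 1 / ((n + 1 : ℕ) + 1 : ℂ) ^ s‖ ≤
      ∑' n : ℕ, 1 / (((n + 1 : ℕ):ℝ) + 1) ^ 2 :=
    tsum_of_norm_bounded hs6.hasSum fun n => hnorm (n + 1)
  refine h7.trans ?_
  have h8 : ∑' n : ℕ, 1 / ((n:ℝ)) ^ 2 = Real.pi ^ 2 / 6 := hs2.tsum_eq
  have h9 : ∑' n : ℕ, 1 / ((n:ℝ)) ^ 2 = 0 + ∑' n : ℕ, 1 / ((n:ℝ) + 1) ^ 2 := by
    rw [hs2.summable.tsum_eq_zero_add]; simp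
  have h10 : ∑' n : ℕ, 1 / ((n:ℝ) + 1) ^ 2 = 1 + ∑' n : ℕ, 1 / (((n + 1 : ℕ):ℝ) + 1) ^ 2 := by
    rw [hs3.tsum_eq_zero_add]; simp
  linarith

lemma norm_zeta_bounds_two {s : ℂ} (hs : 2 ≤ s.re) :
    1 / 4 ≤ ‖riemannZeta s‖ ∧ ‖riemannZeta s‖ ≤ 2 := by
  have h := norm_zeta_sub_one_le hs
  have h11 : Real.pi ^ 2 < 10.5 := by
    have := Real.pi_lt_d2
    nlinarith [Real.pi_pos]
  have h1 : ‖riemannZeta s‖ ≤ ‖riemannZeta s - 1‖ + 1 := by
    have := norm_add_le (riemannZeta s - 1) 1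
    simpa using this
  have h2 : 1 ≤ ‖riemannZeta s‖ + ‖riemannZeta s - 1‖ := by
    have := norm_sub_le (riemannZeta s) (riemannZeta s - 1)
    simpa using this
  constructor <;> linarith

/-- `Z(s)` through the integral of the fractional part. -/
lemma ZZ_eq_HInt {s : ℂ} (hs : 0 < s.re) :
    ZZ s = s + (s - 1) * (s * HInt (fun _ => 1) 1 s) := by
  have hU : IsPreconnected {z : ℂ | 0 < z.re} := (convex_halfSpace_re_gt 0).isPreconnected
  have hO : IsOpen {z : ℂ | 0 < z.re} := isOpen_lt continuous_const Complex.continuous_re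
  have hf : AnalyticOnNhd ℂ ZZ {z : ℂ | 0 < z.re} := by
    refine DifferentiableOn.analyticOnNhd (fun z hz => ?_) hO
    exact (ZZ_differentiableAt hz).differentiableWithinAt
  have hg : AnalyticOnNhd ℂ (fun s => s + (s - 1) * (s * HInt (fun _ => 1) 1 s))
      {z : ℂ | 0 < z.re} := by
    refine DifferentiableOn.analyticOnNhd (fun z hz => ?_) hO
    have h1 : DifferentiableAt ℂ (HInt (fun _ => 1) 1) z :=
      HInt_differentiableAt (fun _ hu => norm_Rem_one_le hu) hz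
    exact (DifferentiableAt.add (by fun_prop) (DifferentiableAt.mul (by fun_prop)
      (DifferentiableAt.mul (by fun_prop) h1))).differentiableWithinAt
  have h2 : (2:ℂ) ∈ {z : ℂ | 0 < z.re} := by simp
  refine hf.eqOn_of_preconnected_of_eventuallyEq hg hU h2 ?_ hs
  have h3 : ∀ᶠ z : ℂ in 𝓝 2, 1 < z.re := by
    refine (isOpen_lt continuous_const Complex.continuous_re).mem_nhds ?_
    simp
  filter_upwards [h3] with z hz
  have hz1 : z ≠ 1 := by rintro rfl; simp at hz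
  have hz2 : z - 1 ≠ 0 := sub_ne_zero.mpr hz1
  rw [ZZ_eq (by linarith) hz1, ← ZX_eq_zeta hz]
  unfold ZX Gx
  field_simp

/-- A priori bound for `Z`. -/
lemma norm_ZZ_apriori {s : ℂ} (hs : 1 / 2 ≤ s.re) : ‖ZZ s‖ ≤ ‖s‖ * (1 + 2 * ‖s - 1‖) := by
  have hs0 : 0 < s.re := by linarith
  rw [ZZ_eq_HInt hs0]
  have h1 := norm_HInt_le (f := fun _ => 1) (κ := 1) (fun _ hu => norm_Rem_one_le hu) hs0
  have h2 : 1 / s.re ≤ 2 := by
    rw [div_le_iff₀ hs0]; linarith
  calc ‖s + (s - 1) * (s * HInt (fun _ => 1) 1 s)‖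
      ≤ ‖s‖ + ‖(s - 1) * (s * HInt (fun _ => 1) 1 s)‖ := norm_add_le _ _
    _ = ‖s‖ + ‖s - 1‖ * (‖s‖ * ‖HInt (fun _ => 1) 1 s‖) := by rw [norm_mul, norm_mul]
    _ ≤ ‖s‖ + ‖s - 1‖ * (‖s‖ * 2) := by
        gcongr
        exact h1.trans h2
    _ = _ := by ring

/-- The functional equation in terms of norms. -/
lemma norm_zeta_fe {s : ℂ} (h0 : s ≠ 0) (h1 : s.re < 1) :
    ‖riemannZeta s‖ = 2 * (2 * Real.pi) ^ (s.re - 1) * ‖Complex.Gamma (1 - s)‖ *
      ‖Complex.cos (Real.pi * (1 - s) / 2)‖ * ‖riemannZeta (1 - s)‖ := by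
  have h2 := riemannZeta_one_sub (s := 1 - s) (fun n h => by
    have := congrArg Complex.re h
    simp at this
    have h3 : (0:ℝ) ≤ n := Nat.cast_nonneg n
    linarith) (fun h => h0 (by linear_combination -h))
  rw [sub_sub_cancel] at h2
  rw [h2, norm_mul, norm_mul, norm_mul, norm_mul]
  congr 4
  · simp
  · have h3 : ((2:ℂ) * Real.pi) = ((2 * Real.pi : ℝ) : ℂ) := by push_cast; ring
    rw [h3, Complex.norm_cpow_eq_rpow_re_of_pos (by positivity)]
    simp

lemma norm_cos_le (z : ℂ) : ‖Complex.cos z‖ ≤ Real.exp |z.im| := by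
  rw [Complex.cos]
  have h1 : ‖Complex.exp (z * I)‖ ≤ Real.exp |z.im| := by
    rw [Complex.norm_exp]
    apply Real.exp_le_exp.mpr
    simp
    exact neg_le_abs _
  have h2 : ‖Complex.exp (-z * I)‖ ≤ Real.exp |z.im| := by
    rw [Complex.norm_exp]
    apply Real.exp_le_exp.mpr
    simp
    exact le_abs_self _
  rw [norm_div]
  have h3 := norm_add_le (Complex.exp (z * I)) (Complex.exp (-z * I))
  simp only [Complex.norm_ofNat]
  linarith

/-- A priori bound for `ζ` in the strip `0 ≤ Re s ≤ b < 1`. -/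
lemma norm_zeta_apriori {b : ℝ} (hb : b < 1) : ∃ M : ℝ, 0 < M ∧ ∀ s : ℂ, 0 ≤ s.re → s.re ≤ b →
    ‖riemannZeta s‖ ≤ M * Real.exp (4 * |s.im|) := by
  obtain ⟨G, hG⟩ := isCompact_Icc.exists_bound_of_continuousOn (s := Icc (1/2:ℝ) 1)
    (f := Real.Gamma) (fun x hx => (Real.differentiableAt_Gamma (fun m => by
      have h3 : (0:ℝ) ≤ m := Nat.cast_nonneg m
      intro h
      linarith [hx.1])).continuousAt.continuousWithinAt)
  have hexp : ∀ t : ℝ, (1 + |t|) ≤ Real.exp |t| := fun t => by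
    have := Real.add_one_le_exp |t|; linarith
  -- bound for `1/2 ≤ Re s`
  have hright : ∀ s : ℂ, 1 / 2 ≤ s.re → s.re ≤ 1 → ∀ d : ℝ, 0 < d → d ≤ ‖s - 1‖ →
      ‖riemannZeta s‖ ≤ (2 / d + 4) * Real.exp |s.im| := by
    intro s hs hs1 d hd hd1
    have h1 : s ≠ 1 := by
      rintro rfl; simp at hd1; linarith
    have h2 : 0 < ‖s - 1‖ := norm_pos_iff.mpr (sub_ne_zero.mpr h1)
    have h3 := norm_ZZ_apriori hs
    rw [ZZ_eq (by linarith) h1, norm_mul] at h3
    have h4 : ‖s‖ ≤ 1 + |s.im| := by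
      refine (Complex.norm_le_abs_re_add_abs_im s).trans ?_
      rw [abs_of_nonneg (by linarith)]
      linarith
    have h5 : ‖riemannZeta s‖ ≤ ‖s‖ * (1 / ‖s - 1‖ + 2) := by
      have : ‖s‖ * (1 / ‖s - 1‖ + 2) = ‖s‖ * (1 + 2 * ‖s - 1‖) / ‖s - 1‖ := by
        field_simp
      rw [this, le_div_iff₀ h2]
      linarith
    calc ‖riemannZeta s‖ ≤ ‖s‖ * (1 / ‖s - 1‖ + 2) := h5
      _ ≤ (1 + |s.im|) * (1 / d + 2) := by gcongr
      _ ≤ Real.exp |s.im| * (1 / d + 2) := by gcongr; exact hexp _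
      _ ≤ Real.exp |s.im| * (2 / d + 4) := by
          gcongr
          · norm_num
          · norm_num
      _ = _ := by ring
  -- the compact part near the real axis on the left
  have hcomp : IsCompact (Icc (0:ℝ) (1/2) ×ℂ Icc (-1:ℝ) 1) :=
    isCompact_Icc.reProdIm isCompact_Icc
  obtain ⟨K, hK⟩ := hcomp.exists_bound_of_continuousOn (f := riemannZeta) (fun z hz => by
    refine (differentiableAt_riemannZeta ?_).continuousAt.continuousWithinAt
    rintro rfl
    have := hz.1.2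
    simp at this
    norm_num at this)
  have hb1 : 0 < 1 - b := by linarith
  have hG0 : 0 ≤ G := (norm_nonneg _).trans (hG 1 ⟨by norm_num, le_rfl⟩)
  have hK0 : 0 ≤ K := (norm_nonneg _).trans (hK 0 (by
    constructor <;> simp))
  refine ⟨(2 / (1 - b) + 4) + K + 2 * G * 6, by positivity, fun s hs hsb => ?_⟩
  have hE : 1 ≤ Real.exp (4 * |s.im|) := Real.one_le_exp (by positivity)
  have hE1 : Real.exp |s.im| ≤ Real.exp (4 * |s.im|) :=
    Real.exp_le_exp.mpr (by linarith [abs_nonneg s.im])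
  rcases le_total (1/2) s.re with h | h
  · have h1 := hright s h (by linarith) (1 - b) hb1 (by
      have := Complex.abs_re_le_norm (s - 1)
      simp only [sub_re, one_re] at this
      rw [abs_sub_comm, abs_of_nonneg (by linarith)] at this
      linarith)
    calc ‖riemannZeta s‖ ≤ (2 / (1 - b) + 4) * Real.exp |s.im| := h1
      _ ≤ (2 / (1 - b) + 4) * Real.exp (4 * |s.im|) := by gcongr
      _ ≤ _ := by
          refine mul_le_mul_of_nonneg_right ?_ (by positivity)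
          nlinarith [mul_nonneg hG0 (by norm_num : (0:ℝ) ≤ 2 * 6)]
  · rcases le_total |s.im| 1 with h2 | h2
    · have h3 := hK s ⟨⟨hs, h⟩, ⟨(abs_le.mp h2).1, (abs_le.mp h2).2⟩⟩
      calc ‖riemannZeta s‖ ≤ K := h3
        _ ≤ ((2 / (1 - b) + 4) + K + 2 * G * 6) * 1 := by
          have : 0 ≤ 2 / (1 - b) := by positivity
          nlinarith [mul_nonneg hG0 (by norm_num : (0:ℝ) ≤ 2 * 6)]
        _ ≤ _ := by
          have : 0 ≤ 2 / (1 - b) := by positivity
          gcongr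
    · have h0 : s ≠ 0 := by
        rintro rfl; simp at h2; linarith
      rw [norm_zeta_fe h0 (by linarith)]
      have e1 : (2 * Real.pi) ^ (s.re - 1) ≤ 1 := by
        refine Real.rpow_le_one_of_one_le_of_nonpos ?_ (by linarith)
        linarith [Real.pi_gt_three]
      have e2 : ‖Complex.Gamma (1 - s)‖ ≤ G := by
        refine (norm_Gamma_le (by simp; linarith)).trans ?_
        refine (le_abs_self _).trans (hG _ ⟨?_, ?_⟩) <;> simp <;> linarith
      have e3 : ‖Complex.cos (Real.pi * (1 - s) / 2)‖ ≤ Real.exp (2 * |s.im|) := by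
        refine (norm_cos_le _).trans (Real.exp_le_exp.mpr ?_)
        have h5 : ((Real.pi:ℂ) * (1 - s) / 2).im = - (Real.pi / 2) * s.im := by
          have h6 : (Real.pi:ℂ) * (1 - s) / 2 = ((Real.pi / 2 : ℝ) : ℂ) * (1 - s) := by
            push_cast; ring
          rw [h6, Complex.im_ofReal_mul]
          simp
        rw [h5, abs_mul, abs_neg, abs_of_pos (by positivity : (0:ℝ) < Real.pi / 2)]
        have := Real.pi_lt_four
        gcongr
        linarith
      have e4 : ‖riemannZeta (1 - s)‖ ≤ (2 / 1 + 4) * Real.exp |s.im| := by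
        have h3 := hright (1 - s) (by simp; linarith) (by simp; linarith) 1 one_pos (by
          have : (1 - s - 1 : ℂ) = -s := by ring
          rw [this, norm_neg]
          exact h2.trans (Complex.abs_im_le_norm s))
        simpa using h3
      calc 2 * (2 * Real.pi) ^ (s.re - 1) * ‖Complex.Gamma (1 - s)‖ *
            ‖Complex.cos (Real.pi * (1 - s) / 2)‖ * ‖riemannZeta (1 - s)‖
          ≤ 2 * 1 * G * Real.exp (2 * |s.im|) * ((2 / 1 + 4) * Real.exp |s.im|) := by gcongr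
        _ = (2 * G * 6) * Real.exp (3 * |s.im|) := by
            have : 3 * |s.im| = 2 * |s.im| + |s.im| := by ring
            rw [this, Real.exp_add]; ring
        _ ≤ (2 * G * 6) * Real.exp (4 * |s.im|) := by
            gcongr
            norm_num
        _ ≤ _ := by
            gcongr
            have : 0 ≤ 2 / (1 - b) := by positivity
            linarith

lemma norm_Gamma_sinh (t : ℝ) :
    (‖Complex.Gamma (1 - t * I)‖ * |Real.sinh (Real.pi * t / 2)|) ^ 2 ≤ Real.pi * |t| / 2 := by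
  rcases eq_or_ne t 0 with rfl | ht
  · simp
  have h1 := Complex.Gamma_mul_Gamma_one_sub (t * I)
  have h2 : Complex.sin (Real.pi * (t * I)) = (Real.sinh (Real.pi * t) : ℂ) * I := by
    rw [← mul_assoc, Complex.sin_mul_I]
    push_cast
    rfl
  have h3 : ‖Complex.Gamma (1 - t * I)‖ = |t| * ‖Complex.Gamma (t * I)‖ := by
    have e1 : (1 - t * I : ℂ) = (starRingEnd ℂ) (t * I + 1) := by
      simp [Complex.conj_I]; ring
    rw [e1, Complex.Gamma_conj, Complex.norm_conj, Complex.Gamma_add_one _ (by simpa using ht),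
      norm_mul]
    simp
  set S := |Real.sinh (Real.pi * t / 2)| with hS
  set Ch := Real.cosh (Real.pi * t / 2) with hCh
  have hCp : 0 < Ch := Real.cosh_pos _
  have hne : Real.pi * t / 2 ≠ 0 := by
    have := Real.pi_pos
    positivity
  have hSp : 0 < S := abs_pos.mpr (by rwa [ne_eq, Real.sinh_eq_zero])
  have hSC : S ≤ Ch := by
    refine abs_le_of_sq_le_sq ?_ hCp.le
    rw [hCh]
    nlinarith [Real.cosh_sq (Real.pi * t / 2)]
  have h4 : |Real.sinh (Real.pi * t)| = 2 * S * Ch := by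
    have : Real.pi * t = 2 * (Real.pi * t / 2) := by ring
    rw [this, Real.sinh_two_mul, abs_mul, abs_mul, abs_of_pos hCp,
      abs_of_pos (by norm_num : (0:ℝ) < 2)]
  have h5 : ‖Complex.Gamma (t * I)‖ * ‖Complex.Gamma (1 - t * I)‖ = Real.pi / (2 * S * Ch) := by
    rw [← norm_mul, h1, h2, norm_div, norm_mul, Complex.norm_I, mul_one, Complex.norm_real,
      Complex.norm_real, Real.norm_eq_abs, Real.norm_eq_abs, h4, abs_of_pos Real.pi_pos]
  have h6 : ‖Complex.Gamma (1 - t * I)‖ ^ 2 = |t| * (Real.pi / (2 * S * Ch)) := by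
    rw [← h5, sq]
    nth_rewrite 1 [h3]
    ring
  rw [mul_pow, h6]
  have h7 : |t| * (Real.pi / (2 * S * Ch)) * S ^ 2 = (Real.pi * |t| / 2) * (S / Ch) := by
    field_simp
  rw [h7]
  have h8 : S / Ch ≤ 1 := by rw [div_le_one hCp]; exact hSC
  exact mul_le_of_le_one_right (by positivity) h8

lemma norm_zeta_I_le {t : ℝ} (ht : t ≠ 0) :
    ‖riemannZeta (t * I)‖ ≤ √|t| * ‖riemannZeta (1 - t * I)‖ := by
  have h0 : (t * I : ℂ) ≠ 0 := by simpa using ht
  rw [norm_zeta_fe h0 (by simp)]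
  have e1 : ((Real.pi:ℂ) * (1 - t * I) / 2) = Real.pi / 2 - (((Real.pi * t / 2 : ℝ) : ℂ)) * I := by
    push_cast; ring
  have e2 : ‖Complex.cos ((Real.pi:ℂ) * (1 - t * I) / 2)‖ = |Real.sinh (Real.pi * t / 2)| := by
    rw [e1, Complex.cos_pi_div_two_sub, Complex.sin_mul_I, norm_mul, Complex.norm_I, mul_one,
      ← Complex.ofReal_sinh, Complex.norm_real, Real.norm_eq_abs]
  rw [e2]
  have h1 := norm_Gamma_sinh t
  have h2 : ‖Complex.Gamma (1 - t * I)‖ * |Real.sinh (Real.pi * t / 2)| ≤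
      √(Real.pi * |t| / 2) := Real.le_sqrt_of_sq_le h1
  have e3 : (2 * Real.pi) ^ ((t * I : ℂ).re - 1) = 1 / (2 * Real.pi) := by
    have : ((t * I : ℂ).re - 1) = (-1 : ℝ) := by simp
    rw [this, Real.rpow_neg_one, one_div]
  rw [e3]
  have h3 : 1 / Real.pi * √(Real.pi * |t| / 2) ≤ √|t| := by
    have h4 : Real.pi * |t| / 2 ≤ Real.pi ^ 2 * |t| := by
      have := Real.pi_gt_three
      have h5 : 0 ≤ |t| := abs_nonneg t
      have h6 : Real.pi / 2 ≤ Real.pi ^ 2 := by nlinarith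
      nlinarith
    calc 1 / Real.pi * √(Real.pi * |t| / 2) ≤ 1 / Real.pi * √(Real.pi ^ 2 * |t|) := by
          gcongr
      _ = √|t| := by
          rw [Real.sqrt_mul (by positivity), Real.sqrt_sq Real.pi_pos.le]
          field_simp
  calc 2 * (1 / (2 * Real.pi)) * ‖Complex.Gamma (1 - t * I)‖ * |Real.sinh (Real.pi * t / 2)| *
        ‖riemannZeta (1 - t * I)‖
      = (1 / Real.pi * (‖Complex.Gamma (1 - t * I)‖ * |Real.sinh (Real.pi * t / 2)|)) *
        ‖riemannZeta (1 - t * I)‖ := by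
        field_simp
    _ ≤ (1 / Real.pi * √(Real.pi * |t| / 2)) * ‖riemannZeta (1 - t * I)‖ := by gcongr
    _ ≤ _ := by gcongr

/-- `ζ` on the imaginary axis, under RH. -/
lemma norm_zeta_left (hRH : RiemannHypothesis) {ε : ℝ} (hε : 0 < ε) :
    ∃ C : ℝ, 0 < C ∧ ∀ t : ℝ, ‖riemannZeta (t * I)‖ ≤ C * (|t| + 2) ^ (1 / 2 + ε) := by
  obtain ⟨C, hC, h1⟩ := ZZ_bounds hRH (η := 1/2) (by norm_num) (by norm_num) hε
  obtain ⟨K, hK⟩ := isCompact_Icc.exists_bound_of_continuousOn (s := Icc (-1:ℝ) 1)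
    (f := fun t : ℝ => riemannZeta (t * I)) (by
      intro t _
      have h2 : ContinuousAt riemannZeta (t * I) := by
        refine (differentiableAt_riemannZeta ?_).continuousAt
        intro h
        have := congrArg Complex.re h
        simp at this
      have h3 : ContinuousAt (fun t : ℝ => (t * I : ℂ)) t := by fun_prop
      exact (ContinuousAt.comp (f := fun t : ℝ => (t * I : ℂ)) h2 h3).continuousWithinAt)
  have hK0 : 0 ≤ K := (norm_nonneg _).trans (hK 0 (by constructor <;> norm_num))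
  refine ⟨K + 3 * C, by positivity, fun t => ?_⟩
  have hT : (1:ℝ) ≤ |t| + 2 := by linarith [abs_nonneg t]
  have hT0 : 0 < |t| + 2 := by linarith
  rcases le_total |t| 1 with h | h
  · calc ‖riemannZeta (t * I)‖ ≤ K := hK t (abs_le.mp h)
      _ ≤ (K + 3 * C) * 1 := by linarith
      _ ≤ _ := by
        gcongr
        exact Real.one_le_rpow hT (by positivity)
  · have ht : t ≠ 0 := by rintro rfl; simp at h; linarith
    have h2 := (h1 (1 - t * I) (by simp; norm_num) (by simp)).1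
    have hne : (1 - t * I : ℂ) ≠ 1 := by
      intro h3
      have := congrArg Complex.im h3
      simp at this
      exact ht this
    rw [ZZ_eq (by simp) hne, norm_mul] at h2
    have e1 : ‖(1 - t * I - 1 : ℂ)‖ = |t| := by
      have : (1 - t * I - 1 : ℂ) = -(t * I) := by ring
      rw [this, norm_neg]; simp
    have e2 : |(1 - t * I : ℂ).im| = |t| := by simp
    rw [e1, e2] at h2
    have ht0 : 0 < |t| := by linarith
    have h3 : ‖riemannZeta (1 - t * I)‖ ≤ 3 * C * (|t| + 2) ^ ε := by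
      have h4 : |t| * ‖riemannZeta (1 - t * I)‖ ≤ |t| * (3 * C * (|t| + 2) ^ ε) := by
        refine h2.trans ?_
        rw [Real.rpow_add hT0, Real.rpow_one]
        have h5 : |t| + 2 ≤ 3 * |t| := by linarith
        calc C * ((|t| + 2) * (|t| + 2) ^ ε) ≤ C * ((3 * |t|) * (|t| + 2) ^ ε) := by gcongr
          _ = _ := by ring
      exact le_of_mul_le_mul_left h4 ht0
    have h5 : √|t| ≤ (|t| + 2) ^ (1 / 2 : ℝ) := by
      rw [Real.sqrt_eq_rpow]
      exact Real.rpow_le_rpow (abs_nonneg t) (by linarith) (by norm_num)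
    calc ‖riemannZeta (t * I)‖ ≤ √|t| * ‖riemannZeta (1 - t * I)‖ := norm_zeta_I_le ht
      _ ≤ (|t| + 2) ^ (1 / 2 : ℝ) * (3 * C * (|t| + 2) ^ ε) := by gcongr
      _ = 3 * C * (|t| + 2) ^ (1 / 2 + ε) := by rw [Real.rpow_add hT0]; ring
      _ ≤ _ := by
        gcongr
        linarith

lemma sq_le_four_exp {u : ℝ} (hu : 0 ≤ u) : (1 + u) ^ 2 ≤ 4 * Real.exp (u ^ 2) := by
  have h1 : u ^ 2 / 2 + 1 ≤ Real.exp (u ^ 2 / 2) := Real.add_one_le_exp _
  have h2 : 1 + u ≤ 2 * Real.exp (u ^ 2 / 2) := by nlinarith [sq_nonneg (u - 1)]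
  calc (1 + u) ^ 2 ≤ (2 * Real.exp (u ^ 2 / 2)) ^ 2 := by gcongr
    _ = 4 * (Real.exp (u ^ 2 / 2) * Real.exp (u ^ 2 / 2)) := by ring
    _ = 4 * Real.exp (u ^ 2) := by rw [← Real.exp_add]; ring_nf

/-- Gaussian localization of a power. -/
lemma rpow_gauss_le {p : ℝ} (hp : 0 ≤ p) (hp2 : p ≤ 2) (t τ : ℝ) :
    (|t| + 2) ^ p * Real.exp (-(t - τ) ^ 2) ≤ 4 * (|τ| + 2) ^ p := by
  set u := |t - τ| with hu
  have hu0 : 0 ≤ u := abs_nonneg _
  have h1 : |t| + 2 ≤ (|τ| + 2) * (1 + u) := by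
    have h2 : |t| ≤ |τ| + u := by
      have : t = τ + (t - τ) := by ring
      calc |t| = |τ + (t - τ)| := by rw [← this]
        _ ≤ _ := abs_add_le _ _
    nlinarith [abs_nonneg τ, mul_nonneg (abs_nonneg τ) hu0]
  have h3 : (|t| + 2) ^ p ≤ (|τ| + 2) ^ p * (1 + u) ^ (2:ℕ) := by
    calc (|t| + 2) ^ p ≤ ((|τ| + 2) * (1 + u)) ^ p := by gcongr
      _ = (|τ| + 2) ^ p * (1 + u) ^ p := Real.mul_rpow (by positivity) (by positivity)
      _ ≤ _ := by
        gcongr
        rw [← Real.rpow_natCast]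
        exact Real.rpow_le_rpow_of_exponent_le (by linarith) (by push_cast; exact hp2)
  have h4 := sq_le_four_exp hu0
  have h5 : (t - τ) ^ 2 = u ^ 2 := by rw [hu, sq_abs]
  rw [h5]
  calc (|t| + 2) ^ p * Real.exp (-u ^ 2) ≤
        ((|τ| + 2) ^ p * (1 + u) ^ (2:ℕ)) * Real.exp (-u ^ 2) := by gcongr
    _ ≤ ((|τ| + 2) ^ p * (4 * Real.exp (u ^ 2))) * Real.exp (-u ^ 2) := by gcongr
    _ = 4 * (|τ| + 2) ^ p * (Real.exp (u ^ 2) * Real.exp (-u ^ 2)) := by ring
    _ = 4 * (|τ| + 2) ^ p := by rw [← Real.exp_add]; simp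

/-- Convexity bound to the left of the critical line, under RH. -/
lemma norm_zeta_strip (hRH : RiemannHypothesis) {η ε : ℝ} (hη : 0 < η) (hη1 : η < 1 / 2)
    (hε : 0 < ε) (hε1 : ε ≤ 1) :
    ∃ C : ℝ, 0 < C ∧ ∀ s : ℂ, 0 ≤ s.re → s.re ≤ 1 / 2 + η →
      ‖riemannZeta s‖ ≤ C * (|s.im| + 2) ^ (1 / 2 * (1 - s.re / (1 / 2 + η)) + ε) := by
  set b := 1 / 2 + η with hb
  have hb0 : 0 < b := by linarith
  have hb1 : b < 1 := by linarith
  obtain ⟨C1, hC1, h1⟩ := norm_zeta_left hRH hε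
  obtain ⟨C2, hC2, h2⟩ := ZZ_bounds hRH hη (by linarith) hε
  obtain ⟨M, hM, h3⟩ := norm_zeta_apriori hb1
  -- the right line
  have hr : ∀ s : ℂ, s.re = b → ‖riemannZeta s‖ ≤ 3 / (1 - b) * C2 * (|s.im| + 2) ^ ε := by
    intro s hs
    have hs1 : s ≠ 1 := by
      rintro rfl; simp at hs; linarith
    have h4 := (h2 s (by rw [hs]) (by rw [hs]; linarith)).1
    rw [ZZ_eq (by rw [hs]; exact hb0) hs1, norm_mul] at h4
    have hT0 : 0 < |s.im| + 2 := by positivity
    have h5 : (|s.im| + 2) * (1 - b) / 3 ≤ ‖s - 1‖ := by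
      have h6 : |s.im| ≤ ‖s - 1‖ := by
        have := Complex.abs_im_le_norm (s - 1)
        simpa using this
      have h7 : 1 - b ≤ ‖s - 1‖ := by
        have := Complex.abs_re_le_norm (s - 1)
        simp only [sub_re, one_re, hs] at this
        rw [abs_sub_comm, abs_of_nonneg (by linarith)] at this
        exact this
      nlinarith [abs_nonneg s.im]
    have h8 : (|s.im| + 2) * (1 - b) / 3 * ‖riemannZeta s‖ ≤ C2 * (|s.im| + 2) ^ (1 + ε) :=
      (mul_le_mul_of_nonneg_right h5 (norm_nonneg _)).trans h4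
    rw [Real.rpow_add hT0, Real.rpow_one] at h8
    have h9 : 0 < (|s.im| + 2) * (1 - b) / 3 := by
      have : 0 < 1 - b := by linarith
      positivity
    refine le_of_mul_le_mul_left ?_ h9
    refine h8.trans (le_of_eq ?_)
    have : (1 - b) ≠ 0 := by linarith
    field_simp
  set D := 4 * Real.exp 1 * (C1 + 3 / (1 - b) * C2) with hD
  have h1b : 0 < 1 - b := by linarith
  have hD0 : 0 < D := by positivity
  refine ⟨D, hD0, fun z hz0 hzb => ?_⟩
  set τ := z.im with hτ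
  set T := |τ| + 2 with hT
  have hT1 : 1 ≤ T := by linarith [abs_nonneg τ]
  have hT0 : 0 < T := by linarith
  set f : ℂ → ℂ := fun s => riemannZeta s * Complex.exp ((s - τ * I) ^ 2) with hf
  have hnexp : ∀ s : ℂ, ‖Complex.exp ((s - τ * I) ^ 2)‖ = Real.exp (s.re ^ 2 - (s.im - τ) ^ 2) := by
    intro s
    rw [Complex.norm_exp]
    congr 1
    simp [sq]
  have hd : DiffContOnCl ℂ f (HadamardThreeLines.verticalStrip 0 b) := by
    have hdiff : ∀ s : ℂ, s.re ≤ b → DifferentiableAt ℂ f s := by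
      intro s hs
      have hs1 : s ≠ 1 := by
        rintro rfl; simp at hs; linarith
      exact (differentiableAt_riemannZeta hs1).mul (by fun_prop)
    refine DifferentiableOn.diffContOnCl fun s hs => (hdiff s ?_).differentiableWithinAt
    have hcl : IsClosed {s : ℂ | s.re ≤ b} := isClosed_le Complex.continuous_re continuous_const
    exact (closure_minimal (fun s hs => (le_of_lt hs.2 : s.re ≤ b)) hcl) hs
  have hB : BddAbove ((norm ∘ f) '' HadamardThreeLines.verticalClosedStrip 0 b) := by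
    refine ⟨M * Real.exp (4 * |τ| + 5), ?_⟩
    rintro _ ⟨s, hs, rfl⟩
    have hs0 : 0 ≤ s.re := hs.1
    have hsb : s.re ≤ b := hs.2
    simp only [Function.comp, hf, norm_mul, hnexp]
    calc ‖riemannZeta s‖ * Real.exp (s.re ^ 2 - (s.im - τ) ^ 2)
        ≤ (M * Real.exp (4 * |s.im|)) * Real.exp (s.re ^ 2 - (s.im - τ) ^ 2) := by
          gcongr
          exact h3 s hs0 hsb
      _ = M * Real.exp (4 * |s.im| + (s.re ^ 2 - (s.im - τ) ^ 2)) := by
          rw [Real.exp_add]; ring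
      _ ≤ M * Real.exp (4 * |τ| + 5) := by
          refine mul_le_mul_of_nonneg_left (Real.exp_le_exp.mpr ?_) hM.le
          have h4 : |s.im| ≤ |τ| + |s.im - τ| := by
            have : s.im = τ + (s.im - τ) := by ring
            calc |s.im| = |τ + (s.im - τ)| := by rw [← this]
              _ ≤ _ := abs_add_le _ _
          have h5 : s.re ^ 2 ≤ 1 := by nlinarith
          have h6 : (s.im - τ) ^ 2 = |s.im - τ| ^ 2 := (sq_abs _).symm
          nlinarith [sq_nonneg (|s.im - τ| - 2)]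
  have hleft : ∀ s ∈ re ⁻¹' {(0:ℝ)}, ‖f s‖ ≤ D * T ^ (1 / 2 + ε) := by
    intro s hs
    have hs0 : s.re = 0 := hs
    have e1 : s = s.im * I := by
      apply Complex.ext <;> simp [hs0]
    have h4 := h1 s.im
    rw [← e1] at h4
    simp only [hf, norm_mul, hnexp, hs0]
    calc ‖riemannZeta s‖ * Real.exp (0 ^ 2 - (s.im - τ) ^ 2)
        ≤ (C1 * (|s.im| + 2) ^ (1 / 2 + ε)) * Real.exp (-(s.im - τ) ^ 2) := by
          have : (0:ℝ) ^ 2 - (s.im - τ) ^ 2 = -(s.im - τ) ^ 2 := by ring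
          rw [this]
          gcongr
      _ = C1 * ((|s.im| + 2) ^ (1 / 2 + ε) * Real.exp (-(s.im - τ) ^ 2)) := by ring
      _ ≤ C1 * (4 * T ^ (1 / 2 + ε)) :=
          mul_le_mul_of_nonneg_left (rpow_gauss_le (by positivity) (by linarith) _ _) hC1.le
      _ = (4 * 1 * C1) * T ^ (1 / 2 + ε) := by ring
      _ ≤ D * T ^ (1 / 2 + ε) := by
          rw [hD]
          gcongr
          · exact Real.one_le_exp zero_le_one
          · have : 0 < 3 / (1 - b) * C2 := by positivity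
            linarith
  have hright : ∀ s ∈ re ⁻¹' {b}, ‖f s‖ ≤ D * T ^ ε := by
    intro s hs
    have hs0 : s.re = b := hs
    have h4 := hr s hs0
    simp only [hf, norm_mul, hnexp, hs0]
    calc ‖riemannZeta s‖ * Real.exp (b ^ 2 - (s.im - τ) ^ 2)
        ≤ (3 / (1 - b) * C2 * (|s.im| + 2) ^ ε) * (Real.exp 1 * Real.exp (-(s.im - τ) ^ 2)) := by
          rw [← Real.exp_add]
          gcongr
          nlinarith
      _ = Real.exp 1 * (3 / (1 - b) * C2) * ((|s.im| + 2) ^ ε * Real.exp (-(s.im - τ) ^ 2)) := by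
          ring
      _ ≤ Real.exp 1 * (3 / (1 - b) * C2) * (4 * T ^ ε) :=
          mul_le_mul_of_nonneg_left (rpow_gauss_le hε.le (by linarith) _ _) (by positivity)
      _ = (4 * Real.exp 1 * (3 / (1 - b) * C2)) * T ^ ε := by ring
      _ ≤ D * T ^ ε := by
          rw [hD]
          gcongr
          linarith
  have hz : z ∈ HadamardThreeLines.verticalClosedStrip 0 b := ⟨hz0, hzb⟩
  have hmain := HadamardThreeLines.norm_le_interp_of_mem_verticalClosedStrip' hb0 hz hd hB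
    hleft hright
  have e2 : ‖riemannZeta z‖ ≤ ‖f z‖ := by
    simp only [hf, norm_mul, hnexp]
    have : 1 ≤ Real.exp (z.re ^ 2 - (z.im - τ) ^ 2) := by
      apply Real.one_le_exp
      rw [← hτ]; nlinarith [sq_nonneg z.re]
    exact le_mul_of_one_le_right (norm_nonneg _) this
  refine e2.trans (hmain.trans (le_of_eq ?_))
  simp only [sub_zero]
  set θ := z.re / b with hθ
  rw [Real.mul_rpow hD0.le (by positivity), Real.mul_rpow hD0.le (by positivity),
    ← Real.rpow_mul hT0.le, ← Real.rpow_mul hT0.le]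
  have e3 : D ^ (1 - θ) * T ^ ((1 / 2 + ε) * (1 - θ)) * (D ^ θ * T ^ (ε * θ)) =
      (D ^ (1 - θ) * D ^ θ) * (T ^ ((1 / 2 + ε) * (1 - θ)) * T ^ (ε * θ)) := by ring
  rw [e3, ← Real.rpow_add hD0, ← Real.rpow_add hT0]
  have e4 : (1 - θ) + θ = 1 := by ring
  have e5 : (1 / 2 + ε) * (1 - θ) + ε * θ = 1 / 2 * (1 - θ) + ε := by ring
  rw [e4, e5, Real.rpow_one]

end Pool.Agent.SqFull
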